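import Pool.Agent.Work.MP_bec1e1_lv_helper6.PHI2b

/-!
# Block PHI2: saturation, flat cone
-/

set_option autoImplicit false
set_option maxHeartbeats 400000

open Filter Topology
open scoped BigOperators

namespace Pool.Agent.LCSV

open Pool.Agent.LCSE

/-- the fields of `PhiFacts` of block PHI1 -/
structure Phi1Facts (k : ℕ) : Prop where
  nonneg : ∀ a b : ℝ, 0 ≤ Phi k a b
  mono : ∀ a a' b b' : ℝ, a ≤ a' → b ≤ b' → Phi k a b ≤ Phi k a' b'
  comm : ∀ a b : ℝ, Phi k a b = Phi k b a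
  superadd : ∀ a b a' b' : ℝ, 0 ≤ a → 0 ≤ b → 0 ≤ a' → 0 ≤ b' →
    Phi k a b + Phi k a' b' ≤ Phi k (a + a') (b + b')
  hom : ∀ t a b : ℝ, 0 ≤ t → 0 ≤ a → 0 ≤ b → Phi k (t * a) (t * b) = t * Phi k a b
  le_left : ∀ a b : ℝ, 0 ≤ a → 0 ≤ b → Phi k a b ≤ a
  F_le : ∀ a b : ℕ, F k a b ≤ Phi k a b
  lim : ∀ a b : ℝ, 0 ≤ a → 0 ≤ b →
    Tendsto (fun n : ℕ => F k ⌊(n : ℝ) * a⌋₊ ⌊(n : ℝ) * b⌋₊ / (n : ℝ)) atTop (𝓝 (Phi k a b))
  lip : ∀ a b h : ℝ, 0 ≤ a → 0 ≤ b → 0 ≤ h → Phi k (a + h) b ≤ Phi k a b + h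
  line : ∀ a b : ℝ, 0 ≤ a → 0 ≤ b → Phi k a b ≤ al k * (a + b)
  gam_pos : 0 < gam k
  gam_lt : gam k < 1
  gam_eq : Tendsto (fun n : ℕ => EL k n / n) atTop (𝓝 (gam k))

namespace P2H6

variable {k : ℕ}

lemma le_of_sqrt {A B C : ℝ} (h : ∀ j : ℕ, 1 ≤ j → A - C / √(j : ℝ) ≤ B) : A ≤ B := by
  have h1 : Tendsto (fun j : ℕ => A - C / √(j : ℝ)) atTop (𝓝 (A - 0)) := by
    apply tendsto_const_nhds.sub
    apply tendsto_const_nhds.div_atTop
    exact Real.tendsto_sqrt_atTop.comp tendsto_natCast_atTop_atTop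
  rw [sub_zero] at h1
  exact le_of_tendsto h1 ((eventually_ge_atTop 1).mono fun j hj => h j hj)

lemma Phi_one_k (hk : 2 ≤ k) (h : Phi1Facts k) : 1 ≤ Phi k 1 k := by
  have hk2 : (2 : ℝ) ≤ k := by exact_mod_cast hk
  apply le_of_sqrt (C := 1 / 2)
  intro n hn
  have hn' : (1 : ℝ) ≤ n := by exact_mod_cast hn
  have hs : 0 < √(n : ℝ) := Real.sqrt_pos.mpr (by linarith)
  have hss : √(n : ℝ) * √(n : ℝ) = n := Real.mul_self_sqrt (by linarith)
  have h1 : (n : ℝ) - √(n : ℝ) / 2 ≤ F k n (k * n) := by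
    unfold F
    refine le_trans ?_ (const_le_Ex (by omega) (c := hh k (√(n : ℝ)) n ((k * n : ℕ) : ℝ))
      fun x hx => ?_)
    · unfold hh
      have e1 : (n : ℝ) - ((k * n : ℕ) : ℝ) / k + √(n : ℝ) = √(n : ℝ) := by
        push_cast
        field_simp
        ring
      have e2 : ((k * n : ℕ) : ℝ) * ((1 / (k : ℝ)) * (1 - 1 / k)) = n * (1 - 1 / k) := by
        push_cast
        field_simp
      rw [e1, e2]
      have h3 : 0 ≤ 1 / (k : ℝ) := by positivity
      have h2 : (√(n : ℝ) ^ 2 + (n : ℝ) * (1 - 1 / k)) / (4 * √(n : ℝ)) ≤ √(n : ℝ) / 2 := by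
        rw [div_le_iff₀ (by positivity)]
        nlinarith
      linarith
    · rw [← hx]
      exact greedy_all (by omega) (by rw [hx]; exact hs) _ x
  have h2 := h.F_le n (k * n)
  have h3 := h.hom n 1 k (by positivity) (by norm_num) (by positivity)
  rw [mul_one] at h3
  have h4 : Phi k (n : ℝ) ((k * n : ℕ) : ℝ) = n * Phi k 1 k := by
    rw [← h3]
    congr 1
    push_cast; ring
  rw [h4] at h2
  have h5 : (n : ℝ) * (1 - 1 / 2 / √(n : ℝ)) ≤ n * Phi k 1 k := by
    refine le_trans (le_of_eq ?_) (h1.trans h2)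
    field_simp
    nlinarith
  exact le_of_mul_le_mul_left h5 (by linarith)

lemma sat (hk : 2 ≤ k) (h : Phi1Facts k) (v : ℝ) (hv : (k : ℝ) ≤ v) : Phi k 1 v = 1 := by
  have hk2 : (2 : ℝ) ≤ k := by exact_mod_cast hk
  apply le_antisymm (h.le_left 1 v (by norm_num) (by linarith))
  exact (Phi_one_k hk h).trans (h.mono _ _ _ _ le_rfl hv)

/-! ### strict inequality below the saturated direction -/

lemma L_cons_cons_same (c : Fin k) (x y : List (Fin k)) : L (c :: x) (c :: y) ≤ L x y + 1 := by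
  refine (L_cons_cons_le c c x y).trans ?_
  rw [if_pos rfl]
  apply max_le le_rfl
  apply max_le (L_cons_right_le c x y)
  rw [L_comm (c :: x) y, L_comm x y]
  exact L_cons_right_le c y x

lemma missing (hk : 0 < k) {ρ A B : ℝ} (hρ : 0 < ρ) (hρ1 : ρ ≤ 1) (hA : ρ ≤ A) (hB : 1 ≤ B)
    (h : 1 / (k : ℝ) + ρ * B + (1 - 1 / (k : ℝ)) * A ≤ A * B) :
    ∀ (x : List (Fin k)) (b : ℕ),
      Ex k b (fun y => ρ ^ (x.length - L x y)) ≤ A ^ x.length * B ^ b := by
  have hk' : (0 : ℝ) < k := by exact_mod_cast hk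
  have hA0 : 0 < A := lt_of_lt_of_le hρ hA
  intro x
  induction x with
  | nil =>
    intro b
    simp only [List.length_nil, Nat.zero_sub, pow_zero, one_mul]
    rw [Ex_const hk]
    exact one_le_pow₀ hB
  | cons c x ihx =>
    intro b
    induction b with
    | zero =>
      simp only [Ex_zero, L_nil_right, Nat.sub_zero, pow_zero, mul_one]
      exact pow_le_pow_left₀ hρ.le hA _
    | succ b ihb =>
      rw [Ex_succ]
      have hd : ∀ d : Fin k, Ex k b (fun y => ρ ^ ((c :: x).length - L (c :: x) (d :: y))) ≤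
          (if d = c then A ^ x.length * B ^ b else A ^ (x.length + 1) * B ^ b) +
            ρ * Ex k b (fun y => ρ ^ (x.length - L x (d :: y))) := by
        intro d
        have hnn : 0 ≤ ρ * Ex k b (fun y => ρ ^ (x.length - L x (d :: y))) :=
          mul_nonneg hρ.le (Ex_nonneg fun y _ => by positivity)
        by_cases hdc : d = c
        · subst hdc
          rw [if_pos rfl]
          refine le_trans ?_ (le_add_of_nonneg_right hnn)
          refine le_trans (Ex_mono fun y _ => ?_) (ihx b)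
          apply pow_le_pow_of_le_one hρ.le hρ1
          have := L_cons_cons_same d x y
          simp only [List.length_cons]
          omega
        · rw [if_neg hdc]
          refine le_trans (Ex_mono (g := fun y => ρ ^ ((c :: x).length - L (c :: x) y) +
            ρ * ρ ^ (x.length - L x (d :: y))) fun y _ => ?_) ?_
          · have h1 := L_cons_cons_le c d x y
            rw [if_neg (Ne.symm hdc)] at h1
            have h1' : L (c :: x) (d :: y) ≤ L x (d :: y) ∨
                L (c :: x) (d :: y) ≤ L (c :: x) y := by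
              rcases le_total (L x (d :: y)) (L (c :: x) y) with h2 | h2
              · right
                rw [max_eq_right h2] at h1
                simpa using h1
              · left
                rw [max_eq_left h2] at h1
                simpa using h1
            have hx1 : L x (d :: y) ≤ x.length := L_le_left _ _
            rcases h1' with h2 | h2
            · refine le_trans ?_ (le_add_of_nonneg_left (by positivity))
              rw [← pow_succ']
              apply pow_le_pow_of_le_one hρ.le hρ1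
              simp only [List.length_cons]
              omega
            · refine le_trans ?_ (le_add_of_nonneg_right (by positivity))
              apply pow_le_pow_of_le_one hρ.le hρ1
              omega
          · rw [Ex_add, Ex_const_mul]
            exact add_le_add_left ihb _
      have hsum := Finset.sum_le_sum fun d (_ : d ∈ (Finset.univ : Finset (Fin k))) => hd d
      rw [Finset.sum_add_distrib, ← Finset.mul_sum] at hsum
      have hval : ∑ d : Fin k, (if d = c then A ^ x.length * B ^ b else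
          A ^ (x.length + 1) * B ^ b) =
          A ^ x.length * B ^ b + (k - 1) * (A ^ (x.length + 1) * B ^ b) := by
        rw [← Finset.add_sum_erase Finset.univ _ (Finset.mem_univ c), if_pos rfl]
        congr 1
        rw [Finset.sum_congr rfl (g := fun _ => A ^ (x.length + 1) * B ^ b)]
        · rw [Finset.sum_const, Finset.card_erase_of_mem (Finset.mem_univ c), nsmul_eq_mul]
          simp [Nat.cast_sub (show 1 ≤ k from hk)]
        · intro d hd
          rw [if_neg (Finset.ne_of_mem_erase hd)]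
      rw [hval] at hsum
      have h2 := ihx (b + 1)
      rw [Ex_succ] at h2
      calc _ ≤ (A ^ x.length * B ^ b + (k - 1) * (A ^ (x.length + 1) * B ^ b) +
              ρ * ∑ d : Fin k, Ex k b (fun y => ρ ^ (x.length - L x (d :: y)))) / k :=
            div_le_div_of_nonneg_right hsum hk'.le
        _ = A ^ x.length * B ^ b * (1 / (k : ℝ) + (1 - 1 / k) * A) +
              ρ * ((∑ d : Fin k, Ex k b (fun y => ρ ^ (x.length - L x (d :: y)))) / k) := by
            rw [pow_succ]
            field_simp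
        _ ≤ A ^ x.length * B ^ b * (1 / (k : ℝ) + (1 - 1 / k) * A) +
              ρ * (A ^ x.length * B ^ (b + 1)) := by
            gcongr
        _ = A ^ x.length * B ^ b * (1 / (k : ℝ) + ρ * B + (1 - 1 / k) * A) := by
            rw [pow_succ]; ring
        _ ≤ A ^ x.length * B ^ b * (A * B) := by gcongr
        _ = A ^ (c :: x).length * B ^ (b + 1) := by
            rw [List.length_cons, pow_succ, pow_succ]; ring

lemma F_upper (hk : 0 < k) {ρ A B : ℝ} (hρ : 0 < ρ) (hρ1 : ρ < 1) (hA : ρ ≤ A) (hB : 1 ≤ B)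
    (h : 1 / (k : ℝ) + ρ * B + (1 - 1 / (k : ℝ)) * A ≤ A * B) (n b : ℕ) :
    F k n b ≤ n - (n * Real.log A + b * Real.log B) / Real.log ρ := by
  have hA0 : 0 < A := lt_of_lt_of_le hρ hA
  have hlog : Real.log ρ < 0 := Real.log_neg hρ hρ1
  unfold F
  apply Ex_le_const hk
  intro x hx
  have h1 := missing hk hρ hρ1.le hA hB h x b
  have h2 := Ex_exp_jensen hk b (fun y => ((x.length : ℝ) - L x y) * Real.log ρ)
  have h3 : Ex k b (fun y => Real.exp (((x.length : ℝ) - L x y) * Real.log ρ)) =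
      Ex k b (fun y => ρ ^ (x.length - L x y)) := by
    apply Ex_congr
    intro y _
    have hle : L x y ≤ x.length := L_le_left _ _
    rw [mul_comm, Real.exp_mul, Real.exp_log hρ, ← Nat.cast_sub hle, Real.rpow_natCast]
  rw [h3, Ex_mul_const, Ex_sub, Ex_const hk] at h2
  have h4 : ((x.length : ℝ) - Ex k b (fun y => (L x y : ℝ))) * Real.log ρ ≤
      x.length * Real.log A + b * Real.log B := by
    rw [← Real.exp_le_exp]
    refine (h2.trans h1).trans (le_of_eq ?_)
    rw [Real.exp_add, mul_comm (x.length : ℝ), mul_comm (b : ℝ), Real.exp_mul, Real.exp_mul,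
      Real.exp_log hA0, Real.exp_log (by linarith : 0 < B), Real.rpow_natCast,
      Real.rpow_natCast]
  rw [hx] at h4
  have h5 : ((n : ℝ) * Real.log A + b * Real.log B) / Real.log ρ ≤
      (n : ℝ) - Ex k b (fun y => (L x y : ℝ)) := by
    rw [div_le_iff_of_neg hlog]
    linarith
  linarith

lemma notsat (hk : 2 ≤ k) (v : ℝ) (hv : 0 ≤ v) (hvk : v < k) : Phi k 1 v < 1 := by
  have hk2 : (2 : ℝ) ≤ k := by exact_mod_cast hk
  have hk0 : (0 : ℝ) < k := by linarith
  set θ := v / k with hθ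
  have hθ0 : 0 ≤ θ := by positivity
  have hθ1 : θ < 1 := by rw [hθ, div_lt_one hk0]; exact hvk
  set τ := (1 - θ) / 2 with hτ
  have hτ0 : 0 < τ := by rw [hτ]; linarith
  have hτ1 : τ ≤ 1 / 2 := by rw [hτ]; linarith
  set κ₀ := τ * (1 - θ * (1 + τ)) / (1 + τ) with hκ
  have hθτ : θ * (1 + τ) < 1 := by rw [hτ]; nlinarith
  have hκ0 : 0 < κ₀ := by
    have : 0 < 1 - θ * (1 + τ) := by linarith
    positivity
  have hκ1 : κ₀ ≤ 1 / (1 + τ) := by
    rw [hκ]
    apply div_le_div_of_nonneg_right _ (by linarith)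
    have : 0 ≤ θ * (1 + τ) := by positivity
    nlinarith
  set B := 1 + τ / k with hB
  have hB1 : 1 ≤ B := by
    have : 0 ≤ τ / k := by positivity
    linarith
  set ρ := κ₀ / (2 * k * B) with hρdef
  have hρ0 : 0 < ρ := by positivity
  have hden : (1 : ℝ) < 2 * k * B := by nlinarith
  have hρκ : ρ < κ₀ := by
    rw [hρdef]
    exact div_lt_self hκ0 hden
  have hone : 1 / (1 + τ) < 1 := by rw [div_lt_one (by linarith)]; linarith
  have hρ1 : ρ < 1 := by linarith
  set A := (1 + k * ρ * B) / (1 + τ) with hA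
  have hkρB : k * ρ * B = κ₀ / 2 := by
    rw [hρdef]; field_simp
  have hAρ : ρ ≤ A := by
    have : 1 / (1 + τ) ≤ A := by
      rw [hA]
      apply div_le_div_of_nonneg_right _ (by linarith)
      have : 0 ≤ k * ρ * B := by positivity
      linarith
    linarith
  have hA0 : 0 < A := lt_of_lt_of_le hρ0 hAρ
  have hstep : 1 / (k : ℝ) + ρ * B + (1 - 1 / (k : ℝ)) * A ≤ A * B := by
    have h1 : A * (1 + τ) = 1 + k * ρ * B := by rw [hA]; field_simp
    have h2 : A * B - (1 - 1 / (k : ℝ)) * A = A * (1 + τ) / k := by rw [hB]; field_simp; ring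
    have h3 : (1 + k * ρ * B) / k = 1 / (k : ℝ) + ρ * B := by field_simp
    rw [h1, h3] at h2
    linarith
  have hlogB : Real.log B ≤ τ / k := by
    have := Real.log_le_sub_one_of_pos (show 0 < B by linarith)
    rw [hB] at this ⊢
    linarith
  have hlogB0 : 0 ≤ Real.log B := Real.log_nonneg hB1
  have hlogA : Real.log A ≤ κ₀ / 2 - τ / (1 + τ) := by
    rw [hA, Real.log_div (by positivity) (by positivity)]
    have h1 := Real.log_le_sub_one_of_pos (show 0 < 1 + k * ρ * B by positivity)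
    have h2 := Real.one_sub_inv_le_log_of_pos (show 0 < 1 + τ by linarith)
    have h3 : 1 - (1 + τ)⁻¹ = τ / (1 + τ) := by field_simp; ring
    rw [h3] at h2
    rw [hkρB] at h1
    rw [hkρB]
    linarith
  have hsumlog : Real.log A + v * Real.log B ≤ -(κ₀ / 2) := by
    have h1 : v * Real.log B ≤ v * (τ / k) := mul_le_mul_of_nonneg_left hlogB hv
    have h2 : v * (τ / k) = θ * τ := by rw [hθ]; field_simp
    have h3 : κ₀ = τ / (1 + τ) - θ * τ := by rw [hκ]; field_simp
    linarith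
  have hlogρ : Real.log ρ < 0 := Real.log_neg hρ0 hρ1
  have hPhi : Phi k 1 v ≤ 1 - (Real.log A + v * Real.log B) / Real.log ρ := by
    unfold Phi
    apply ciSup_le
    intro n
    have hN : (0 : ℝ) < (n : ℝ) + 1 := by positivity
    rw [div_le_iff₀ hN]
    have e1 : ⌊((n : ℝ) + 1) * 1⌋₊ = n + 1 := by
      rw [mul_one]
      exact_mod_cast Nat.floor_natCast (R := ℝ) (n + 1)
    rw [e1]
    refine (F_upper (by omega) hρ0 hρ1 hAρ hB1 hstep _ _).trans ?_
    have h1 : ((⌊((n : ℝ) + 1) * v⌋₊ : ℕ) : ℝ) ≤ ((n : ℝ) + 1) * v :=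
      Nat.floor_le (by positivity)
    have h2 : (((n + 1 : ℕ) : ℝ) * Real.log A + (⌊((n : ℝ) + 1) * v⌋₊ : ℕ) * Real.log B) ≤
        ((n : ℝ) + 1) * (Real.log A + v * Real.log B) := by
      push_cast
      nlinarith
    have h3 : ((n : ℝ) + 1) * (Real.log A + v * Real.log B) / Real.log ρ ≤
        (((n + 1 : ℕ) : ℝ) * Real.log A + (⌊((n : ℝ) + 1) * v⌋₊ : ℕ) * Real.log B) / Real.log ρ :=
      div_le_div_of_nonpos_of_le hlogρ.le h2
    calc _ ≤ ((n + 1 : ℕ) : ℝ) - ((n : ℝ) + 1) * (Real.log A + v * Real.log B) / Real.log ρ := by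
          linarith
      _ = _ := by push_cast; ring
  have hpos : 0 < (Real.log A + v * Real.log B) / Real.log ρ :=
    div_pos_of_neg_of_neg (by linarith) hlogρ
  linarith

/-! ### derivative at the saturated direction -/

lemma par (hk : 2 ≤ k) {r : ℕ} (hr : 1 ≤ r) :
    Par k r ((k - 1) * r) (hh ((k : ℝ) - 1) (√(r : ℝ)) r (((k - 1) * r : ℕ) : ℝ)) := by
  have hk2 : (2 : ℝ) ≤ k := by exact_mod_cast hk
  have hr' : (1 : ℝ) ≤ r := by exact_mod_cast hr
  have hs : 0 < √(r : ℝ) := Real.sqrt_pos.mpr (by linarith)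
  refine ⟨hk, Nat.mul_pos (by omega) (by omega), ?_, ?_⟩
  · unfold hh
    have h1 : 0 ≤ 1 - 1 / ((k : ℝ) - 1) := by
      rw [sub_nonneg, div_le_one (by linarith)]; linarith
    have h2 : 0 ≤ 1 / ((k : ℝ) - 1) := by
      have : 0 ≤ (k : ℝ) - 1 := by linarith
      positivity
    have : 0 ≤ (((r : ℝ) - (((k - 1) * r : ℕ) : ℝ) / ((k : ℝ) - 1) + √(r : ℝ)) ^ 2 +
        (((k - 1) * r : ℕ) : ℝ) * ((1 / ((k : ℝ) - 1)) * (1 - 1 / ((k : ℝ) - 1)))) /
        (4 * √(r : ℝ)) := by positivity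
    linarith
  · intro c
    have hcard : ((Finset.univ.erase c : Finset (Fin k)).card : ℝ) = (k : ℝ) - 1 := by
      rw [Finset.card_erase_of_mem (Finset.mem_univ c)]
      simp [Nat.cast_sub (show 1 ≤ k by omega)]
    have hcard1 : 1 ≤ (Finset.univ.erase c : Finset (Fin k)).card := by
      rw [Finset.card_erase_of_mem (Finset.mem_univ c)]
      simp; omega
    have h1 : ∀ x : List (Fin k), x.length = r → ind (c ∉ x) * ((((k : ℝ) - 1) / k) ^ ((k - 1) * r) *
        hh ((k : ℝ) - 1) (√(r : ℝ)) r (((k - 1) * r : ℕ) : ℝ)) ≤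
        ind (c ∉ x) * Ex k ((k - 1) * r) (fun u => ind (c ∉ u) * (L x u : ℝ)) := by
      intro x hx
      by_cases hcx : c ∈ x
      · rw [ind_false (not_not.mpr hcx)]; simp
      · rw [ind_true hcx, one_mul, one_mul]
        have h2 := greedy (Finset.univ.erase c) hcard1 hs ((k - 1) * r) x
          ((notMem_iff_InS c x).mp hcx)
        rw [hcard, hx] at h2
        refine h2.trans (le_of_eq (Ex_congr fun u _ => ?_))
        rw [ind_congr (notMem_iff_InS c u)]
    refine le_trans (le_of_eq ?_) (Ex_mono h1)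
    rw [Ex_mul_const, mass_notMem, pow_add]
    ring

lemma HP_lower (r M : ℕ) (G : ℝ) {s W : ℝ} (hs : 0 < s) (j : ℕ) (b : ℝ)
    (hW : W = k * ((r : ℝ) + 1) * (1 - qq k r M)) (hb : b ≤ W * j) (hb' : W * j < b + 1) :
    (((r : ℝ) + 1) - qq k r M * (((r : ℝ) + 1) - G)) * j -
      ((1 + s + M) ^ 2 + ((k * ((r : ℝ) + 1)) ^ 2 + k * ((k : ℝ) - 1) * ((r : ℝ) + 1)) * j) /
        (4 * s) ≤ HP k r M G s 0 j b := by
  unfold HP HH
  rw [← hW]
  have h1 : (W * j + (k : ℝ) * ((0 : ℕ) : ℝ) - b + (s + M)) ^ 2 ≤ (1 + s + M) ^ 2 := by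
    apply pow_le_pow_left₀
    · have : (0 : ℝ) ≤ M := Nat.cast_nonneg _
      simp only [Nat.cast_zero, mul_zero, add_zero]
      linarith
    · simp only [Nat.cast_zero, mul_zero, add_zero]
      linarith
  have h2 : ((W * j + (k : ℝ) * ((0 : ℕ) : ℝ) - b + (s + M)) ^ 2 +
      ((k * ((r : ℝ) + 1)) ^ 2 + k * ((k : ℝ) - 1) * ((r : ℝ) + 1)) * j +
      (k : ℝ) * ((k : ℝ) - 1) * ((0 : ℕ) : ℝ)) / (4 * s) ≤
      ((1 + s + M) ^ 2 + ((k * ((r : ℝ) + 1)) ^ 2 + k * ((k : ℝ) - 1) * ((r : ℝ) + 1)) * j) /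
        (4 * s) := by
    apply div_le_div_of_nonneg_right _ (by positivity)
    simp only [Nat.cast_zero, mul_zero, add_zero] at h1 ⊢
    linarith
  simp only [Nat.cast_zero, add_zero] at h2 ⊢
  linarith

lemma Phi_strategy (h : Phi1Facts k) {r M : ℕ} {G : ℝ} (P : Par k r M G) :
    ((r : ℝ) + 1) - qq k r M * (((r : ℝ) + 1) - G) ≤
      Phi k ((r : ℝ) + 1) (k * ((r : ℝ) + 1) * (1 - qq k r M)) := by
  have hk := P.hk
  have hk2 : (2 : ℝ) ≤ k := by exact_mod_cast hk
  set W := k * ((r : ℝ) + 1) * (1 - qq k r M) with hW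
  set g := ((r : ℝ) + 1) - qq k r M * (((r : ℝ) + 1) - G) with hg
  set V := (k * ((r : ℝ) + 1)) ^ 2 + k * ((k : ℝ) - 1) * ((r : ℝ) + 1) with hV
  have hW0 : 0 ≤ W := by
    have := qq_le (r := r) hk P.hM
    have h1 : 0 ≤ 1 / (k : ℝ) := by positivity
    have h2 : 0 ≤ 1 - qq k r M := by linarith
    positivity
  have hV0 : 0 ≤ V := by
    have : 0 ≤ (k : ℝ) - 1 := by linarith
    positivity
  apply le_of_sqrt (C := (2 * (1 + M) ^ 2 + 2 + V) / 4)
  intro j hj
  have hj' : (1 : ℝ) ≤ j := by exact_mod_cast hj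
  have hs : 0 < √(j : ℝ) := Real.sqrt_pos.mpr (by linarith)
  have hss : √(j : ℝ) ^ 2 = j := Real.sq_sqrt (by linarith)
  have h1 := HP_lower (k := k) r M G hs j ((⌊W * j⌋₊ : ℕ) : ℝ) hW (Nat.floor_le (by positivity))
    (Nat.lt_floor_add_one _)
  have h2 := F_strategy P hs ⌊W * j⌋₊ j
  have h3 := h.F_le ((r + 1) * j) ⌊W * j⌋₊
  have h4 : Phi k (((r + 1) * j : ℕ) : ℝ) ((⌊W * j⌋₊ : ℕ) : ℝ) ≤ j * Phi k ((r : ℝ) + 1) W := by
    rw [← h.hom j ((r : ℝ) + 1) W (by positivity) (by positivity) hW0]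
    apply h.mono
    · push_cast; nlinarith
    · rw [mul_comm (j : ℝ)]; exact Nat.floor_le (by positivity)
  have h5 : ((1 + √(j : ℝ) + M) ^ 2 + V * j) / (4 * √(j : ℝ)) ≤
      j * ((2 * (1 + M) ^ 2 + 2 + V) / 4 / √(j : ℝ)) := by
    have e1 : (j : ℝ) * ((2 * (1 + M) ^ 2 + 2 + V) / 4 / √(j : ℝ)) =
        ((2 * (1 + M) ^ 2 + 2 + V) * j) / (4 * √(j : ℝ)) := by
      field_simp
    rw [e1]
    apply div_le_div_of_nonneg_right _ (by positivity)
    have hM0 : (0 : ℝ) ≤ M := Nat.cast_nonneg _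
    have h6 : (1 + √(j : ℝ) + M) ^ 2 ≤ 2 * (1 + M) ^ 2 + 2 * j := by
      nlinarith [sq_nonneg (1 + (M : ℝ) - √(j : ℝ))]
    have h7 : 2 * (1 + (M : ℝ)) ^ 2 ≤ 2 * (1 + M) ^ 2 * j := by
      have : 0 ≤ 2 * (1 + (M : ℝ)) ^ 2 := by positivity
      nlinarith
    nlinarith
  have h6 : (j : ℝ) * (g - (2 * (1 + M) ^ 2 + 2 + V) / 4 / √(j : ℝ)) ≤
      j * Phi k ((r : ℝ) + 1) W := by
    rw [mul_sub, mul_comm (j : ℝ) g]
    linarith
  exact le_of_mul_le_mul_left h6 (by linarith)

lemma der (hk : 2 ≤ k) (h : Phi1Facts k) (η : ℝ) (hη : 0 < η) :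
    ∃ δ₀ : ℝ, 0 < δ₀ ∧ ∀ δ : ℝ, 0 ≤ δ → δ ≤ δ₀ → 1 - η * δ ≤ Phi k 1 (k - δ) := by
  have hk2 : (2 : ℝ) ≤ k := by exact_mod_cast hk
  obtain ⟨r, hr⟩ := exists_nat_gt (max 1 ((1 / η) ^ 2))
  have hr1 : (1 : ℝ) < r := lt_of_le_of_lt (le_max_left _ _) hr
  have hr2 : (1 / η) ^ 2 < r := lt_of_le_of_lt (le_max_right _ _) hr
  have hr1' : 1 ≤ r := by
    have : (1 : ℝ) ≤ r := hr1.le
    exact_mod_cast this
  have hs : 0 < √(r : ℝ) := Real.sqrt_pos.mpr (by linarith)
  have hss : √(r : ℝ) ^ 2 = r := Real.sq_sqrt (by linarith)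
  have hsr : 1 / η < √(r : ℝ) := by
    rw [Real.lt_sqrt (by positivity)]
    exact hr2
  have P := par hk hr1'
  set M := (k - 1) * r with hM
  set G := hh ((k : ℝ) - 1) (√(r : ℝ)) r ((M : ℕ) : ℝ) with hG
  have hGl : (r : ℝ) - √(r : ℝ) / 2 ≤ G := by
    rw [hG]
    unfold hh
    have e0 : ((M : ℕ) : ℝ) = ((k : ℝ) - 1) * r := by
      rw [hM, Nat.cast_mul, Nat.cast_sub (by omega)]; simp
    have hk1 : (k : ℝ) - 1 ≠ 0 := by linarith
    have e1 : (r : ℝ) - ((M : ℕ) : ℝ) / ((k : ℝ) - 1) + √(r : ℝ) = √(r : ℝ) := by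
      rw [e0]; field_simp; ring
    have e2 : ((M : ℕ) : ℝ) * ((1 / ((k : ℝ) - 1)) * (1 - 1 / ((k : ℝ) - 1))) =
        r * (1 - 1 / ((k : ℝ) - 1)) := by
      rw [e0]; field_simp
    rw [e1, e2]
    have h3 : 0 ≤ 1 / ((k : ℝ) - 1) := by
      have : 0 ≤ (k : ℝ) - 1 := by linarith
      positivity
    have h2 : (√(r : ℝ) ^ 2 + (r : ℝ) * (1 - 1 / ((k : ℝ) - 1))) / (4 * √(r : ℝ)) ≤
        √(r : ℝ) / 2 := by
      rw [div_le_iff₀ (by positivity)]
      nlinarith
    linarith
  have hstr := Phi_strategy h P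
  have hq := qq_pos (k := k) (r := r) (M := M) hk
  have hq1 := qq_le (r := r) hk P.hM
  set q := qq k r M with hqdef
  have hR : (0 : ℝ) < (r : ℝ) + 1 := by linarith
  -- normalise
  have hnorm : 1 - q * (((r : ℝ) + 1) - G) / ((r : ℝ) + 1) ≤ Phi k 1 (k * (1 - q)) := by
    have h1q : 0 ≤ 1 - q := by
      have h1 : 0 ≤ 1 / (k : ℝ) := by positivity
      linarith
    have h1 := h.hom ((r : ℝ) + 1) 1 (k * (1 - q)) hR.le (by norm_num) (by positivity)
    have e1 : ((r : ℝ) + 1) * (k * (1 - q)) = k * ((r : ℝ) + 1) * (1 - q) := by ring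
    rw [mul_one, e1] at h1
    rw [h1] at hstr
    have h2 : ((r : ℝ) + 1) * (1 - q * (((r : ℝ) + 1) - G) / ((r : ℝ) + 1)) ≤
        ((r : ℝ) + 1) * Phi k 1 (k * (1 - q)) := by
      refine le_trans (le_of_eq ?_) hstr
      field_simp
    exact le_of_mul_le_mul_left h2 hR
  have hratio : (((r : ℝ) + 1) - G) / ((r : ℝ) + 1) ≤ k * η := by
    rw [div_le_iff₀ hR]
    have h1 : ((r : ℝ) + 1) - G ≤ 1 + √(r : ℝ) / 2 := by linarith
    have h2 : 1 < η * √(r : ℝ) := by
      rw [div_lt_iff₀ hη] at hsr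
      linarith
    have h3 : (1 : ℝ) ≤ √(r : ℝ) := by
      rw [Real.one_le_sqrt]; exact hr1.le
    have h4 : √(r : ℝ) ≤ η * r := by
      have : √(r : ℝ) * 1 ≤ √(r : ℝ) * (η * √(r : ℝ)) := by
        apply mul_le_mul_of_nonneg_left h2.le hs.le
      nlinarith
    have h5 : 0 ≤ η * ((r : ℝ) + 1) := by positivity
    nlinarith
  refine ⟨k * q, by positivity, ?_⟩
  intro δ hδ0 hδ1
  have hkq : 0 < k * q := by positivity
  set t := δ / (k * q) with ht
  have ht0 : 0 ≤ t := by positivity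
  have ht1 : t ≤ 1 := by rw [ht, div_le_one hkq]; exact hδ1
  have h1q : 0 ≤ 1 - q := by
    have h1 : 0 ≤ 1 / (k : ℝ) := by positivity
    linarith
  have hsup := h.superadd ((1 - t) * 1) ((1 - t) * k) (t * 1) (t * (k * (1 - q)))
    (by linarith) (by have : 0 ≤ 1 - t := by linarith
                      positivity) (by linarith) (by positivity)
  rw [h.hom (1 - t) 1 k (by linarith) (by norm_num) (by positivity),
    h.hom t 1 (k * (1 - q)) ht0 (by norm_num) (by positivity)] at hsup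
  have e1 : (1 - t) * 1 + t * 1 = 1 := by ring
  have e2 : (1 - t) * k + t * (k * (1 - q)) = k - δ := by
    have : t * (k * q) = δ := by rw [ht]; field_simp
    linarith
  rw [e1, e2] at hsup
  have hk1 := Phi_one_k hk h
  have h6 : (1 - t) * 1 ≤ (1 - t) * Phi k 1 k := mul_le_mul_of_nonneg_left hk1 (by linarith)
  have h7 : t * (1 - q * (((r : ℝ) + 1) - G) / ((r : ℝ) + 1)) ≤ t * Phi k 1 (k * (1 - q)) :=
    mul_le_mul_of_nonneg_left hnorm ht0
  have h8 : t * (q * (((r : ℝ) + 1) - G) / ((r : ℝ) + 1)) ≤ η * δ := by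
    have h9 : t * q * k = δ := by rw [ht]; field_simp
    calc t * (q * (((r : ℝ) + 1) - G) / ((r : ℝ) + 1))
        = (t * q) * ((((r : ℝ) + 1) - G) / ((r : ℝ) + 1)) := by ring
      _ ≤ (t * q) * (k * η) := mul_le_mul_of_nonneg_left hratio (by positivity)
      _ = η * (t * q * k) := by ring
      _ = η * δ := by rw [h9]
  linarith

/-! ### the flat cone -/

lemma al_pos (h : Phi1Facts k) : 0 < al k := by
  unfold al; have := h.gam_pos; linarith

lemma flat_one : Flat k 1 1 := by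
  unfold Flat al gam; ring

lemma bdd (h : Phi1Facts k) : BddAbove {v : ℝ | 1 ≤ v ∧ Flat k 1 v} := by
  refine ⟨1 / al k, ?_⟩
  rintro v ⟨hv, hf⟩
  have h1 := h.le_left 1 v (by norm_num) (by linarith)
  unfold Flat at hf
  rw [hf] at h1
  rw [le_div_iff₀ (al_pos h)]
  have := al_pos h
  nlinarith

lemma rho_one (h : Phi1Facts k) : 1 ≤ rho k :=
  le_csSup (bdd h) ⟨le_rfl, flat_one⟩

lemma flat_rho (h : Phi1Facts k) : Flat k 1 (rho k) := by
  have h1 := rho_one h
  have ha := al_pos h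
  apply le_antisymm (h.line 1 (rho k) (by norm_num) (by linarith))
  have h2 : rho k ≤ Phi k 1 (rho k) / al k - 1 := by
    apply csSup_le (show ({v : ℝ | 1 ≤ v ∧ Flat k 1 v}).Nonempty from ⟨1, le_rfl, flat_one⟩)
    rintro v ⟨hv, hf⟩
    have h3 : Phi k 1 v ≤ Phi k 1 (rho k) := h.mono _ _ _ _ le_rfl (le_csSup (bdd h) ⟨hv, hf⟩)
    unfold Flat at hf
    rw [hf] at h3
    rw [le_sub_iff_add_le, le_div_iff₀ ha]
    linarith
  rw [le_sub_iff_add_le, le_div_iff₀ ha] at h2
  linarith

lemma flat_of_le (h : Phi1Facts k) {v : ℝ} (h1 : 1 ≤ v) (h2 : v ≤ rho k) : Flat k 1 v := by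
  apply le_antisymm (h.line 1 v (by norm_num) (by linarith))
  rcases (rho_one h).eq_or_lt with h3 | h3
  · have : v = 1 := by linarith
    rw [this]
    exact le_of_eq flat_one.symm
  · set t := (v - 1) / (rho k - 1) with ht
    have hr : 0 < rho k - 1 := by linarith
    have ht0 : 0 ≤ t := div_nonneg (by linarith) hr.le
    have ht1 : t ≤ 1 := by rw [ht, div_le_one hr]; linarith
    have hsup := h.superadd ((1 - t) * 1) ((1 - t) * 1) (t * 1) (t * rho k)
      (by linarith) (by linarith) (by linarith) (mul_nonneg ht0 (by linarith))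
    rw [h.hom (1 - t) 1 1 (by linarith) (by norm_num) (by norm_num),
      h.hom t 1 (rho k) ht0 (by norm_num) (by linarith)] at hsup
    have e1 : (1 - t) * 1 + t * 1 = 1 := by ring
    have e2 : (1 - t) * 1 + t * rho k = v := by
      have : t * (rho k - 1) = v - 1 := by rw [ht]; field_simp
      linarith
    rw [e1, e2] at hsup
    have f1 := flat_one (k := k)
    have f2 := flat_rho h
    unfold Flat at f1 f2
    rw [f1, f2] at hsup
    refine le_trans (le_of_eq ?_) hsup
    have : t * (rho k - 1) = v - 1 := by rw [ht]; field_simp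
    have e3 : v = 1 + t * (rho k - 1) := by linarith
    rw [e3]; ring

lemma rho_lt (hk : 2 ≤ k) (h : Phi1Facts k) : rho k < k := by
  have hk2 : (2 : ℝ) ≤ k := by exact_mod_cast hk
  have ha := al_pos h
  by_contra hcon
  push Not at hcon
  obtain ⟨δ₀, hδ₀, hder⟩ := der hk h (al k / 2) (by linarith)
  set δ := min δ₀ 1 with hδ
  have hδ0 : 0 < δ := lt_min hδ₀ one_pos
  have hδ1 : δ ≤ 1 := min_le_right _ _
  have h1 := hder δ hδ0.le (min_le_left _ _)
  have h2 := flat_of_le h (v := k) (by linarith) hcon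
  have h3 := flat_of_le h (v := k - δ) (by linarith) (by linarith)
  have h4 := sat hk h k le_rfl
  unfold Flat at h2 h3
  rw [h4] at h2
  rw [h3] at h1
  nlinarith

lemma flat_iff (h : Phi1Facts k) (a b : ℝ) (ha : 0 ≤ a) (hb : 0 ≤ b) :
    Flat k a b ↔ b ≤ rho k * a ∧ a ≤ rho k * b := by
  have hal := al_pos h
  have hr1 := rho_one h
  -- the ordered case
  have key : ∀ a b : ℝ, 0 < a → a ≤ b → (Flat k a b ↔ b ≤ rho k * a) := by
    intro a b ha hab
    have hb : 0 ≤ b := by linarith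
    have e1 : Phi k a b = a * Phi k 1 (b / a) := by
      rw [← h.hom a 1 (b / a) ha.le (by norm_num) (by positivity)]
      congr 1
      · ring
      · field_simp
    have e2 : Flat k a b ↔ Flat k 1 (b / a) := by
      unfold Flat
      rw [e1]
      have e3 : al k * (a + b) = a * (al k * (1 + b / a)) := by field_simp
      rw [e3]
      constructor
      · intro h5; exact mul_left_cancel₀ ha.ne' h5
      · intro h5; rw [h5]
    rw [e2]
    have h1v : 1 ≤ b / a := by rw [le_div_iff₀ ha]; linarith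
    constructor
    · intro h5
      have := le_csSup (bdd h) (show b / a ∈ {v : ℝ | 1 ≤ v ∧ Flat k 1 v} from ⟨h1v, h5⟩)
      rw [div_le_iff₀ ha] at this
      exact this
    · intro h5
      exact flat_of_le h h1v (by rw [div_le_iff₀ ha]; exact h5)
  have fcomm : ∀ a b : ℝ, Flat k a b ↔ Flat k b a := by
    intro a b
    unfold Flat
    rw [h.comm a b, add_comm a b]
  rcases ha.eq_or_lt with ha0 | ha0
  · subst ha0
    have h0 : Phi k 0 b = 0 := le_antisymm (h.le_left 0 b le_rfl hb) (h.nonneg _ _)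
    unfold Flat
    rw [h0]
    constructor
    · intro h5
      have : b = 0 := by
        have : al k * b = 0 := by linarith
        rcases mul_eq_zero.mp this with h6 | h6
        · linarith
        · exact h6
      subst this
      simp
    · rintro ⟨h5, _⟩
      have : b = 0 := by
        rw [mul_zero] at h5
        linarith
      subst this
      simp
  rcases hb.eq_or_lt with hb0 | hb0
  · subst hb0
    rw [fcomm]
    have h0 : Phi k 0 a = 0 := le_antisymm (h.le_left 0 a le_rfl ha) (h.nonneg _ _)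
    unfold Flat
    rw [h0]
    constructor
    · intro h5
      have : 0 < al k * (0 + a) := by positivity
      linarith
    · rintro ⟨_, h5⟩
      rw [mul_zero] at h5
      linarith
  rcases le_total a b with hab | hab
  · rw [key a b ha0 hab]
    constructor
    · intro h5
      exact ⟨h5, by nlinarith⟩
    · exact fun h5 => h5.1
  · rw [fcomm, key b a hb0 hab]
    constructor
    · intro h5
      exact ⟨by nlinarith, h5⟩
    · exact fun h5 => h5.2

lemma deficit (h : Phi1Facts k) (ε : ℝ) (hε : 0 < ε) : ∃ c : ℝ, 0 < c ∧ ∀ a b : ℝ, 0 ≤ a →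
    (rho k + ε) * a ≤ b → Phi k a b ≤ (al k - c) * (a + b) := by
  have hal := al_pos h
  have hr1 := rho_one h
  set v₀ := rho k + ε with hv₀
  have hv1 : 1 < v₀ := by linarith
  have hnf : ¬ Flat k 1 v₀ := by
    intro hf
    have := le_csSup (bdd h) (show v₀ ∈ {v : ℝ | 1 ≤ v ∧ Flat k 1 v} from ⟨hv1.le, hf⟩)
    change v₀ ≤ rho k at this
    linarith
  have hline := h.line 1 v₀ (by norm_num) (by linarith)
  have hlt : Phi k 1 v₀ < al k * (1 + v₀) := lt_of_le_of_ne hline hnf
  set c₀ := al k - Phi k 1 v₀ / (1 + v₀) with hc₀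
  have hc0 : 0 < c₀ := by
    rw [hc₀, sub_pos, div_lt_iff₀ (by linarith)]
    exact hlt
  have hPv : Phi k 1 v₀ = (al k - c₀) * (1 + v₀) := by
    rw [hc₀]
    have : (1 : ℝ) + v₀ ≠ 0 := by linarith
    field_simp
    ring
  refine ⟨min c₀ (al k), lt_min hc0 hal, ?_⟩
  intro a b ha hab
  have hb : 0 ≤ b := le_trans (by positivity) hab
  rcases ha.eq_or_lt with ha0 | ha0
  · subst ha0
    have h0 : Phi k 0 b ≤ 0 := h.le_left 0 b le_rfl hb
    refine h0.trans ?_
    apply mul_nonneg _ (by linarith)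
    have := min_le_right c₀ (al k)
    linarith
  · set v := b / a with hv
    have hvv : v₀ ≤ v := by rw [hv, le_div_iff₀ ha0]; exact hab
    have hv1' : 1 < v := by linarith
    -- bound for direction (1, v)
    have hmain : Phi k 1 v ≤ (al k - c₀) * (1 + v) := by
      set μ := (v₀ - 1) / (v - 1) with hμ
      have hμ0 : 0 < μ := div_pos (by linarith) (by linarith)
      have hμ1 : μ ≤ 1 := by rw [hμ, div_le_one (by linarith)]; linarith
      have hsup := h.superadd ((1 - μ) * 1) ((1 - μ) * 1) (μ * 1) (μ * v)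
        (by linarith) (by linarith) (by linarith) (mul_nonneg hμ0.le (by linarith))
      rw [h.hom (1 - μ) 1 1 (by linarith) (by norm_num) (by norm_num),
        h.hom μ 1 v hμ0.le (by norm_num) (by linarith)] at hsup
      have hμv : μ * (v - 1) = v₀ - 1 := by
        rw [hμ]
        have : v - 1 ≠ 0 := by linarith
        field_simp
      have e1 : (1 - μ) * 1 + μ * 1 = 1 := by ring
      have e2 : (1 - μ) * 1 + μ * v = v₀ := by linarith
      rw [e1, e2, hPv] at hsup
      have f1 := flat_one (k := k)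
      unfold Flat at f1
      rw [f1] at hsup
      -- μ Phi ≤ μ (al - c₀)(1+v)
      have h5 : μ * Phi k 1 v ≤ μ * ((al k - c₀) * (1 + v)) := by
        have e3 : v₀ = 1 + μ * (v - 1) := by linarith
        have e4 : (al k - c₀) * (1 + v₀) - (1 - μ) * (al k * (1 + 1)) =
            μ * ((al k - c₀) * (1 + v)) - 2 * c₀ * (1 - μ) := by
          rw [e3]; ring
        have h6 : 0 ≤ 2 * c₀ * (1 - μ) := by
          have : 0 ≤ 1 - μ := by linarith
          positivity
        linarith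
      exact le_of_mul_le_mul_left h5 hμ0
    have e1 : Phi k a b = a * Phi k 1 v := by
      rw [← h.hom a 1 v ha0.le (by norm_num) (by linarith)]
      congr 1
      · ring
      · rw [hv]; field_simp
    have e2 : a + b = a * (1 + v) := by rw [hv]; field_simp
    rw [e1, e2]
    have h7 := min_le_left c₀ (al k)
    calc a * Phi k 1 v ≤ a * ((al k - c₀) * (1 + v)) := mul_le_mul_of_nonneg_left hmain ha0.le
      _ ≤ a * ((al k - min c₀ (al k)) * (1 + v)) := by
          apply mul_le_mul_of_nonneg_left _ ha0.le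
          apply mul_le_mul_of_nonneg_right _ (by linarith)
          linarith
      _ = _ := by ring

end P2H6

/-- **PHI2** -/
theorem stmt_PHI2 (k : ℕ) (hk : 2 ≤ k) (h : Phi1Facts k) : PhiFacts k where
  nonneg := h.nonneg
  mono := h.mono
  comm := h.comm
  superadd := h.superadd
  hom := h.hom
  le_left := h.le_left
  F_le := h.F_le
  lim := h.lim
  lip := h.lip
  line := h.line
  gam_pos := h.gam_pos
  gam_lt := h.gam_lt
  gam_eq := h.gam_eq
  sat := P2H6.sat hk h
  notsat := P2H6.notsat hk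
  der := P2H6.der hk h
  rho_one := P2H6.rho_one h
  rho_lt := P2H6.rho_lt hk h
  flat_iff := P2H6.flat_iff h
  deficit := P2H6.deficit h

end Pool.Agent.LCSV
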