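import Pool.Agent.Work.MP_bec1e1_FIN_h39.Interface
import Pool.Agent.Work.MP_bec1e1_lv_h99.EXC

/-!
# Blocks FIN_PLO and FIN_PUPA: prices from hugging
-/

set_option autoImplicit false
set_option maxHeartbeats 400000

open Filter Topology
open scoped BigOperators

namespace Pool.Agent.LCSV

open Pool.Agent.LCSE

namespace PRH6

variable {k : ℕ}

lemma lipL (hL : Stmt_LIP) (x x' y : List (Fin k))
    (h : ∃ l₁ l₂ e e', x = l₁ ++ e :: l₂ ∧ x' = l₁ ++ e' :: l₂) :
    |(L x y : ℝ) - L x' y| ≤ 1 := by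
  obtain ⟨l₁, l₂, e, e', rfl, rfl⟩ := h
  exact hL k l₁ l₂ y e e'

/-- tails of the LCS -/
lemma tails (hM : Stmt_MCD) (hL : Stmt_LIP) (hk : 0 < k) (a b : ℕ) (t : ℝ) (ht : 0 ≤ t) :
    (Ex k a fun x => Ex k b fun y => ind (F k a b + t ≤ (L x y : ℝ))) ≤
        Real.exp (-(2 * t ^ 2 / ((a : ℝ) + b))) ∧
    (Ex k a fun x => Ex k b fun y => ind ((L x y : ℝ) ≤ F k a b - t)) ≤
        Real.exp (-(2 * t ^ 2 / ((a : ℝ) + b))) := by
  have h := hM k a b (fun x y => (L x y : ℝ)) 1 hk one_pos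
    (fun x x' y _ _ _ h => lipL hL x x' y h)
    (fun x y y' _ _ _ h => by
      show |(L x y : ℝ) - L x y'| ≤ 1
      rw [L_comm x y, L_comm x y']
      exact lipL hL y y' x h) t ht
  simp only [one_pow, one_mul] at h
  exact h

/-- tails of the LCS of a word `r ++ u` and of `u` -/
lemma tails_app (hM : Stmt_MCD) (hL : Stmt_LIP) (hk : 0 < k) (a b w : ℕ) (hb : 0 < b) (t : ℝ)
    (ht : 0 ≤ t) :
    (Ex k a fun r => Ex k b fun u => Ex k w fun v =>
      ind (F k (a + b) w + t ≤ (L (r ++ u) v : ℝ))) ≤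
        Real.exp (-(2 * t ^ 2 / ((a : ℝ) + b + w))) ∧
    (Ex k a fun r => Ex k b fun u => Ex k w fun v =>
      ind ((L (r ++ u) v : ℝ) ≤ F k (a + b) w - t)) ≤
        Real.exp (-(2 * t ^ 2 / ((a : ℝ) + b + w))) ∧
    (Ex k a fun _ => Ex k b fun u => Ex k w fun v => ind (F k b w + t ≤ (L u v : ℝ))) ≤
        Real.exp (-(2 * t ^ 2 / ((a : ℝ) + b + w))) ∧
    (Ex k a fun _ => Ex k b fun u => Ex k w fun v => ind ((L u v : ℝ) ≤ F k b w - t)) ≤
        Real.exp (-(2 * t ^ 2 / ((a : ℝ) + b + w))) := by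
  have h1 := tails hM hL hk (a + b) w t ht
  have h2 := tails hM hL hk b w t ht
  rw [Ex_append, Ex_append] at h1
  push_cast at h1
  have hb' : (0 : ℝ) < b := by exact_mod_cast hb
  have h3 : Real.exp (-(2 * t ^ 2 / ((b : ℝ) + w))) ≤
      Real.exp (-(2 * t ^ 2 / ((a : ℝ) + b + w))) := by
    apply Real.exp_le_exp.mpr
    apply neg_le_neg
    apply div_le_div_of_nonneg_left (by positivity) (by positivity)
    have : (0 : ℝ) ≤ a := Nat.cast_nonneg _
    linarith
  refine ⟨h1.1, h1.2, ?_, ?_⟩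
  · rw [Ex_const hk]
    exact h2.1.trans h3
  · rw [Ex_const hk]
    exact h2.2.trans h3

/-- the shape function is Lipschitz in the second variable -/
lemma Phi_near (h : PhiFacts k) {X w c d : ℝ} (hX : 0 ≤ X) (_hw : 0 ≤ w) (hc : 0 ≤ c)
    (hd : |w - c| ≤ d) : Phi k X w ≤ Phi k X c + d := by
  have hd0 : 0 ≤ d := (abs_nonneg _).trans hd
  have h1 := abs_le.mp hd
  calc Phi k X w ≤ Phi k X (c + d) := h.mono _ _ _ _ le_rfl (by linarith)
    _ = Phi k (c + d) X := h.comm _ _
    _ ≤ Phi k c X + d := h.lip c X d hc hX hd0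
    _ = _ := by rw [h.comm]

/-- two exponentially small terms -/
lemma two_exp {η s : ℝ} (hs : 1 ≤ η * s) : 2 * Real.exp (-(2 * (η * s))) ≤ Real.exp (-(η * s)) := by
  have h1 : (2 : ℝ) ≤ Real.exp (η * s) := by
    have := Real.add_one_le_exp (η * s)
    linarith
  have h2 : Real.exp (-(2 * (η * s))) = Real.exp (-(η * s)) * Real.exp (-(η * s)) := by
    rw [← Real.exp_add]; congr 1; ring
  have h3 : Real.exp (η * s) * Real.exp (-(η * s)) = 1 := by
    rw [← Real.exp_add]; simp
  have h4 := Real.exp_pos (-(η * s))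
  rw [h2]
  nlinarith

/-- **comparison of two mean values and concentration.** `a = j s` first rows, `b = B s` last
rows, window of width near `c s`. -/
lemma compare (hM : Stmt_MCD) (hL : Stmt_LIP) {C p q Pl Pu : ℝ} (W : World k C p q Pl Pu)
    (j B : ℕ) (hj : 1 ≤ j) (hB : 1 ≤ B) {c ε : ℝ} (hc : 0 ≤ c) (hε : 0 < ε) :
    ∃ η : ℝ, 0 < η ∧ ∀ᶠ s : ℕ in atTop, ∀ w : ℕ, |(w : ℝ) - c * s| ≤ min (ε * j / 32) 1 * s →
      (Ex k (j * s) fun r => Ex k (B * s) fun u => Ex k w fun v =>
        ind ((L (r ++ u) v : ℝ) < L u v +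
          (Phi k ((j : ℝ) + B) c - Phi k B c - 5 / 8 * (ε * j)) * s)) ≤ Real.exp (-(η * s)) ∧
      (Ex k (j * s) fun r => Ex k (B * s) fun u => Ex k w fun v =>
        ind ((L u v : ℝ) +
          (Phi k ((j : ℝ) + B) c - Phi k B c + 5 / 8 * (ε * j)) * s < L (r ++ u) v)) ≤
        Real.exp (-(η * s)) := by
  have hk0 : 0 < k := by have := W.hk; omega
  have hj' : (1 : ℝ) ≤ j := by exact_mod_cast hj
  have hB' : (1 : ℝ) ≤ B := by exact_mod_cast hB
  set c₁ : ℝ := (j : ℝ) + B + c + 1 with hc₁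
  have hc₁0 : 0 < c₁ := by rw [hc₁]; linarith
  set η : ℝ := (ε * j / 8) ^ 2 / c₁ with hη
  have hεj : 0 < ε * j := by positivity
  have hη0 : 0 < η := by positivity
  refine ⟨η, hη0, ?_⟩
  have hS1 : ∀ᶠ s : ℕ in atTop, 1 / η ≤ (s : ℝ) :=
    tendsto_natCast_atTop_atTop.eventually_ge_atTop _
  have hS2 : ∀ᶠ s : ℕ in atTop, C ^ 2 * c₁ * 256 / (ε * j) ^ 2 ≤ (s : ℝ) :=
    tendsto_natCast_atTop_atTop.eventually_ge_atTop _
  filter_upwards [hS1, hS2, eventually_ge_atTop 1] with s hs1 hs2 hs3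
  have hs' : (1 : ℝ) ≤ s := by exact_mod_cast hs3
  have hs0 : (0 : ℝ) < s := by linarith
  intro w hw
  set d : ℝ := min (ε * j / 32) 1 * s with hd
  have hd1 : d ≤ ε * j / 32 * s := mul_le_mul_of_nonneg_right (min_le_left _ _) hs0.le
  have hd2 : d ≤ 1 * s := mul_le_mul_of_nonneg_right (min_le_right _ _) hs0.le
  have hwle : (w : ℝ) ≤ (c + 1) * s := by
    have := (abs_le.mp hw).2
    linarith
  have hηs : 1 ≤ η * s := by
    rw [div_le_iff₀ hη0] at hs1
    linarith
  have htot : ((j * s : ℕ) : ℝ) + ((B * s : ℕ) : ℝ) + w ≤ c₁ * s := by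
    push_cast
    rw [hc₁]
    nlinarith
  -- deviation of the mean
  have hdef : ∀ a : ℕ, (a : ℝ) + w ≤ c₁ * s → C * √((a : ℝ) + w) ≤ ε * j / 16 * s := by
    intro a ha
    have h1 : √((a : ℝ) + w) ≤ √(c₁ * s) := Real.sqrt_le_sqrt ha
    have h2 : C * √(c₁ * s) ≤ ε * j / 16 * s := by
      have h3 : C * √(c₁ * s) = √(C ^ 2 * (c₁ * s)) := by
        rw [Real.sqrt_mul (sq_nonneg C), Real.sqrt_sq W.C0.le]
      rw [h3]
      apply Real.sqrt_le_iff.mpr
      refine ⟨by positivity, ?_⟩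
      rw [div_le_iff₀ (by positivity)] at hs2
      have : (ε * j / 16 * s) ^ 2 = s * (s * (ε * j) ^ 2) / 256 := by ring
      rw [this]
      have h4 : C ^ 2 * (c₁ * s) = s * (C ^ 2 * c₁ * 256) / 256 := by ring
      rw [h4]
      apply div_le_div_of_nonneg_right _ (by norm_num)
      exact mul_le_mul_of_nonneg_left hs2 hs0.le
    exact (mul_le_mul_of_nonneg_left h1 W.C0.le).trans h2
  have hphi := W.phi
  have hcs : (0 : ℝ) ≤ c * s := by positivity
  have hw0 : (0 : ℝ) ≤ w := Nat.cast_nonneg _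
  -- values of the shape function
  have e1 : Phi k ((j * s + B * s : ℕ) : ℝ) (c * s) = s * Phi k ((j : ℝ) + B) c := by
    rw [← hphi.hom s ((j : ℝ) + B) c hs0.le (by positivity) hc]
    congr 1
    · push_cast; ring
    · ring
  have e2 : Phi k ((B * s : ℕ) : ℝ) (c * s) = s * Phi k B c := by
    rw [← hphi.hom s (B : ℝ) c hs0.le (by positivity) hc]
    congr 1
    · push_cast; ring
    · ring
  have up : ∀ a : ℕ, F k a w ≤ Phi k a (c * s) + ε * j / 32 * s := by
    intro a
    refine (hphi.F_le a w).trans ((Phi_near hphi (Nat.cast_nonneg _) hw0 hcs hw).trans ?_)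
    linarith
  have lo : ∀ a : ℕ, (a : ℝ) + w ≤ c₁ * s →
      Phi k a (c * s) - ε * j / 32 * s - ε * j / 16 * s ≤ F k a w := by
    intro a ha
    have h1 := W.DEF a w
    have h2 := hdef a ha
    have hw' : |c * s - (w : ℝ)| ≤ d := by rw [abs_sub_comm]; exact hw
    have h3 := Phi_near hphi (X := (a : ℝ)) (Nat.cast_nonneg _) hcs hw0 hw'
    linarith
  have upz := up (j * s + B * s)
  have loz := lo (j * s + B * s) (by push_cast at htot ⊢; exact htot)
  have upu := up (B * s)
  have lou := lo (B * s) (by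
    have : (0 : ℝ) ≤ ((j * s : ℕ) : ℝ) := Nat.cast_nonneg _
    linarith)
  rw [e1] at upz loz
  rw [e2] at upu lou
  set t : ℝ := ε * j / 8 * s with ht
  have ht0 : 0 ≤ t := by positivity
  obtain ⟨z1, z2, u1, u2⟩ := tails_app hM hL hk0 (j * s) (B * s) w (Nat.mul_pos (by omega)
    (by omega)) t ht0
  have hexp : Real.exp (-(2 * t ^ 2 / (((j * s : ℕ) : ℝ) + ((B * s : ℕ) : ℝ) + w))) ≤
      Real.exp (-(2 * (η * s))) := by
    apply Real.exp_le_exp.mpr
    apply neg_le_neg
    have hpos : (0 : ℝ) < ((j * s : ℕ) : ℝ) + ((B * s : ℕ) : ℝ) + w := by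
      push_cast
      positivity
    rw [le_div_iff₀ hpos]
    have h5 : 2 * (η * s) * (c₁ * s) = 2 * t ^ 2 := by
      rw [hη, ht]
      field_simp
    calc 2 * (η * s) * (((j * s : ℕ) : ℝ) + ((B * s : ℕ) : ℝ) + w)
        ≤ 2 * (η * s) * (c₁ * s) := mul_le_mul_of_nonneg_left htot (by positivity)
      _ = _ := h5
  have hfin := two_exp hηs
  constructor
  · calc _ ≤ Ex k (j * s) fun r => Ex k (B * s) fun u => Ex k w fun v =>
          (ind ((L (r ++ u) v : ℝ) ≤ F k (j * s + B * s) w - t) +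
            ind (F k (B * s) w + t ≤ (L u v : ℝ))) := by
          apply Ex_mono; intro r _; apply Ex_mono; intro u _; apply Ex_mono; intro v _
          apply ind_le_add
          intro hlt
          by_contra hcon
          push Not at hcon
          obtain ⟨h6, h7⟩ := hcon
          nlinarith
      _ = (Ex k (j * s) fun r => Ex k (B * s) fun u => Ex k w fun v =>
            ind ((L (r ++ u) v : ℝ) ≤ F k (j * s + B * s) w - t)) +
          Ex k (j * s) fun _ => Ex k (B * s) fun u => Ex k w fun v =>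
            ind (F k (B * s) w + t ≤ (L u v : ℝ)) := by
          rw [← Ex_add]
          apply Ex_congr; intro r _
          rw [← Ex_add]
          apply Ex_congr; intro u _
          rw [← Ex_add]
      _ ≤ _ := by linarith
  · calc _ ≤ Ex k (j * s) fun r => Ex k (B * s) fun u => Ex k w fun v =>
          (ind (F k (j * s + B * s) w + t ≤ (L (r ++ u) v : ℝ)) +
            ind ((L u v : ℝ) ≤ F k (B * s) w - t)) := by
          apply Ex_mono; intro r _; apply Ex_mono; intro u _; apply Ex_mono; intro v _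
          apply ind_le_add
          intro hlt
          by_contra hcon
          push Not at hcon
          obtain ⟨h6, h7⟩ := hcon
          nlinarith
      _ = (Ex k (j * s) fun r => Ex k (B * s) fun u => Ex k w fun v =>
            ind (F k (j * s + B * s) w + t ≤ (L (r ++ u) v : ℝ))) +
          Ex k (j * s) fun _ => Ex k (B * s) fun u => Ex k w fun v =>
            ind ((L u v : ℝ) ≤ F k (B * s) w - t) := by
          rw [← Ex_add]
          apply Ex_congr; intro r _
          rw [← Ex_add]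
          apply Ex_congr; intro u _
          rw [← Ex_add]
      _ ≤ _ := by linarith

/-- the environment is long -/
lemma NN_ge (hk : 2 ≤ k) (s : ℕ) : s ≤ NN k s := by
  unfold NN
  calc s ≤ 2 ^ s := Nat.lt_two_pow_self.le
    _ ≤ k ^ s := Nat.pow_le_pow_left hk s
    _ ≤ k ^ (4 * s) := Nat.pow_le_pow_right (by omega) (by omega)

lemma NN_ev (hk : 2 ≤ k) (X : ℝ) (J : ℕ) : ∀ᶠ s : ℕ in atTop, ∀ N : ℕ, NN k s ≤ N + J →
    X ≤ N := by
  have h : ∀ᶠ s : ℕ in atTop, X + J ≤ (s : ℝ) :=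
    tendsto_natCast_atTop_atTop.eventually_ge_atTop _
  filter_upwards [h] with s hs N hN
  have h1 : (s : ℝ) ≤ (N : ℝ) + J := by
    have := (NN_ge hk s).trans hN
    exact_mod_cast this
  linarith

lemma dens (hk : 2 ≤ k) {s : ℕ} {o : Fin k} {θ : ℝ} (h0 : 0 ≤ θ) (h1 : θ ≤ thm k s) :
    (∀ w : List (Fin k), w.length = s → 0 ≤ gth k s o θ w) ∧ Ex k s (gth k s o θ) = 1 := by
  refine ⟨fun w _ => gth_nonneg h0 ?_ w, Ex_gth (by omega) s o θ⟩
  have hk' : (0 : ℝ) < (k : ℝ) ^ s := by
    have : (0 : ℝ) < k := by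
      have : 0 < k := by omega
      exact_mod_cast this
    positivity
  unfold thm at h1
  calc θ * (k : ℝ) ^ s ≤ 1 / (2 * (k : ℝ) ^ s) * (k : ℝ) ^ s :=
        mul_le_mul_of_nonneg_right h1 hk'.le
    _ = 1 / 2 := by field_simp
    _ ≤ 1 := by norm_num

/-- summing over positions -/
lemma sum_positions {N A : ℕ} (hA : A ≤ N + 1) {f : ℕ → ℝ} {ε₁ ε : ℝ}
    (h1 : ∑ p ∈ Finset.range (N + 1 - A), f p ≤ ε₁ * (N + 1)) (h2 : ∀ p, f p ≤ 1)
    (h3 : ε₁ ≤ ε / 2) (h4 : 2 * (A : ℝ) ≤ ε * (N + 1)) :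
    (∑ p ∈ Finset.range (N + 1), f p) / ((N : ℝ) + 1) ≤ ε := by
  have hN : (0 : ℝ) < (N : ℝ) + 1 := by positivity
  rw [div_le_iff₀ hN]
  have h5 : N + 1 = (N + 1 - A) + A := by omega
  rw [h5, Finset.sum_range_add]
  have h6 : ∑ x ∈ Finset.range A, f (N + 1 - A + x) ≤ A := by
    calc _ ≤ ∑ _x ∈ Finset.range A, (1 : ℝ) := Finset.sum_le_sum fun x _ => h2 _
      _ = A := by simp
  nlinarith

end PRH6

open PRH6 in
/-- **PLO** -/
theorem stmt_PLO (hH : Stmt_HUG) (hM : Stmt_MCD) (hL : Stmt_LIP) : Stmt_PLO := by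
  intro k C p q Pl Pu W ε hε j J
  have hk := W.hk
  have hk0 : 0 < k := by omega
  rcases Nat.eq_zero_or_pos j with hj0 | hj
  · subst hj0
    filter_upwards with s o θ hθ0 hθ1 N _ _
    unfold AV
    have h0 : (∑ p ∈ Finset.range (N + 1), Exc k s (gth k s o θ) p fun xs₁ =>
        Exc k s (gth k s o θ) 0 fun rs => Exc k s (gth k s o θ) (N - p) fun xs₂ =>
        Ex k (bb k s) fun y => ind ((L (xs₁.flatten ++ rs.flatten ++ xs₂.flatten) y : ℝ) <
          L (xs₁.flatten ++ xs₂.flatten) y + (Pl - ε) * (((0 : ℕ) : ℝ) * s))) = 0 := by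
      apply Finset.sum_eq_zero
      intro p _
      rw [← Exc_zero_fun (k := k) (s := s) (g := gth k s o θ) p]
      apply Exc_congr; intro xs₁ _
      rw [Exc_zero]
      rw [← Exc_zero_fun (k := k) (s := s) (g := gth k s o θ) (N - p)]
      apply Exc_congr; intro xs₂ _
      rw [← Ex_zero_fun (k := k) (bb k s)]
      apply Ex_congr; intro y _
      apply ind_of_not
      simp
    rw [h0, zero_div]
    exact hε.le
  have hj' : (1 : ℝ) ≤ j := by exact_mod_cast hj
  obtain ⟨u₀, hu₀, hd⟩ := W.pr.dLo (ε / 4) (by linarith)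
  set A : ℕ := max 1 ⌈(j : ℝ) / u₀⌉₊ with hAdef
  have hA1 : 1 ≤ A := le_max_left _ _
  have hA1' : (1 : ℝ) ≤ A := by exact_mod_cast hA1
  have hAj : (j : ℝ) / u₀ ≤ A := by
    refine (Nat.le_ceil _).trans ?_
    exact_mod_cast le_max_right _ _
  have hphi := W.phi
  have hrho : 0 ≤ rho k := by linarith [hphi.rho_one]
  -- concavity
  have hconc : Phi k A (A * rho k) + (Pl - ε / 4) * j ≤ Phi k ((j : ℝ) + A) (A * rho k) := by
    set l : ℝ := (j : ℝ) / A / u₀ with hl
    have hl0 : 0 ≤ l := by positivity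
    have hl1 : l ≤ 1 := by
      rw [hl, div_div, mul_comm, ← div_div, div_le_one (by linarith)]
      exact hAj
    have hlu : l * u₀ = j / A := by rw [hl]; field_simp
    have hs := hphi.superadd ((1 - l) * 1) ((1 - l) * rho k) (l * (1 + u₀)) (l * rho k)
      (by linarith) (mul_nonneg (by linarith) hrho) (by positivity) (by positivity)
    rw [hphi.hom (1 - l) 1 (rho k) (by linarith) (by norm_num) hrho,
      hphi.hom l (1 + u₀) (rho k) hl0 (by linarith) hrho] at hs
    have e1 : (1 - l) * 1 + l * (1 + u₀) = 1 + j / A := by rw [← hlu]; ring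
    have e2 : (1 - l) * rho k + l * rho k = rho k := by ring
    rw [e1, e2] at hs
    have h1 : Phi k 1 (rho k) + (Pl - ε / 4) * (j / A) ≤ Phi k (1 + j / A) (rho k) := by
      have h2 := mul_le_mul_of_nonneg_left hd hl0
      rw [← hlu] at hs ⊢
      have e6 : l * (Phi k 1 (rho k) + (Pl - ε / 4) * u₀) =
          l * Phi k 1 (rho k) + (Pl - ε / 4) * (l * u₀) := by ring
      linarith
    have e3 : Phi k A (A * rho k) = A * Phi k 1 (rho k) := by
      rw [← hphi.hom A 1 (rho k) (by linarith) (by norm_num) hrho, mul_one]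
    have e4 : Phi k ((j : ℝ) + A) (A * rho k) = A * Phi k (1 + j / A) (rho k) := by
      rw [← hphi.hom A (1 + j / A) (rho k) (by linarith) (by positivity) hrho]
      congr 1
      field_simp
      ring
    rw [e3, e4]
    calc (A : ℝ) * Phi k 1 (rho k) + (Pl - ε / 4) * j
        = A * (Phi k 1 (rho k) + (Pl - ε / 4) * (j / A)) := by field_simp
      _ ≤ _ := mul_le_mul_of_nonneg_left h1 (by linarith)
  obtain ⟨η, hη, hcmp⟩ := compare hM hL W j A hj hA1 (c := A * rho k) (ε := ε) (by positivity) hε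
  set ε₁ : ℝ := min (min (ε * j / 32) 1) (ε / 2) with hε₁
  have hε₁0 : 0 < ε₁ := by
    have : 0 < ε * j / 32 := by positivity
    exact lt_min (lt_min this one_pos) (by linarith)
  filter_upwards [hcmp, hH k C p q Pl Pu W ε₁ hε₁0 A hA1 j J η hη, NN_ev hk (2 * (A : ℝ) / ε) J,
    NN_ev hk (A : ℝ) J] with s hs1 hs2 hs3 hs4 o θ hθ0 hθ1 N hN1 hN2
  obtain ⟨hg0, hg1⟩ := dens hk (o := o) hθ0 hθ1
  have hAN : A ≤ N + 1 := by
    have := hs4 N hN1
    have : A ≤ N := by exact_mod_cast this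
    omega
  have hAN2 : 2 * (A : ℝ) ≤ ε * (N + 1) := by
    have := hs3 N hN1
    rw [div_le_iff₀ hε] at this
    nlinarith
  set Q : List (Fin k) → List (Fin k) → List (Fin k) → Prop := fun r u v =>
    |(v.length : ℝ) - A * rho k * s| ≤ min (ε * j / 32) 1 * s ∧
      (L (r ++ u) v : ℝ) < L u v + (Pl - ε) * (j * s) with hQ
  have hQp : ∀ w : ℕ, (w : ℝ) ≤ (rho k + 1) * (A * s) → (Ex k (j * s) fun r => Ex k (A * s) fun u =>
      Ex k w fun v => ind (Q r u v)) ≤ Real.exp (-(η * s)) := by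
    intro w _
    by_cases hw : |(w : ℝ) - A * rho k * s| ≤ min (ε * j / 32) 1 * s
    · refine le_trans ?_ (hs1 w hw).1
      apply Ex_mono; intro r _; apply Ex_mono; intro u _; apply Ex_mono; intro v _
      apply ind_mono
      rintro ⟨_, h2⟩
      refine lt_of_lt_of_le h2 ?_
      have hs0 : (0 : ℝ) ≤ s := Nat.cast_nonneg _
      have h3 : (Pl - ε) * j ≤
          Phi k ((j : ℝ) + A) (A * rho k) - Phi k A (A * rho k) - 5 / 8 * (ε * j) := by
        have : 0 ≤ ε * j := by positivity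
        linarith
      have h4 := mul_le_mul_of_nonneg_right h3 hs0
      linarith
    · have h0 : (Ex k (j * s) fun r => Ex k (A * s) fun u => Ex k w fun v => ind (Q r u v)) =
          Ex k (j * s) fun _ => Ex k (A * s) fun _ => Ex k w fun _ => (0 : ℝ) := by
        apply Ex_congr; intro r _; apply Ex_congr; intro u _; apply Ex_congr; intro v hv
        apply ind_of_not
        rintro ⟨h1, _⟩
        rw [hv] at h1
        exact hw h1
      rw [h0]
      simp only [Ex_zero_fun]
      positivity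
  have hug := hs2 o θ hθ0 hθ1 N hN1 hN2 Q hQp
  unfold AV
  apply sum_positions hAN (ε₁ := ε₁) _ _ (min_le_right _ _) hAN2
  · refine le_trans (Finset.sum_le_sum fun p hp => ?_) hug
    have hp' : p < N + 1 - A := Finset.mem_range.mp hp
    have hsplit : N - p = A + (N - A - p) := by omega
    apply Exc_mono hg0; intro xs₁ _
    apply Exc_mono hg0; intro rs _
    rw [hsplit, Exc_append]
    apply Exc_mono hg0; intro us _
    apply Exc_mono hg0; intro xs₂ _
    apply Ex_mono; intro y _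
    apply ind_mono
    intro hlt
    rintro ⟨g, w, hgw, hw, hnQ, heq⟩
    have hv : ((y.drop g).take w).length = w := by
      rw [List.length_take, List.length_drop]; omega
    have hwA : |(w : ℝ) - A * rho k * s| ≤ min (ε * j / 32) 1 * s := by
      have e5 : (A : ℝ) * rho k * s = rho k * (A * s) := by ring
      rw [e5]
      refine hw.trans ?_
      exact mul_le_mul_of_nonneg_right (min_le_left _ _) (Nat.cast_nonneg _)
    have h6 : (L us.flatten ((y.drop g).take w) : ℝ) + (Pl - ε) * (j * s) ≤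
        L (rs.flatten ++ us.flatten) ((y.drop g).take w) := by
      by_contra hcon
      push Not at hcon
      exact hnQ ⟨by rw [hv]; exact hwA, hcon⟩
    have h7 : L xs₁.flatten (y.take g) + L (rs.flatten ++ us.flatten) ((y.drop g).take w) +
        L xs₂.flatten (y.drop (g + w)) ≤
        L (xs₁.flatten ++ rs.flatten ++ (us ++ xs₂).flatten) y := by
      have hy : y = y.take g ++ ((y.drop g).take w ++ y.drop (g + w)) := by
        rw [← List.drop_drop, List.take_append_drop, List.take_append_drop]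
      have hx : xs₁.flatten ++ rs.flatten ++ (us ++ xs₂).flatten =
          xs₁.flatten ++ ((rs.flatten ++ us.flatten) ++ xs₂.flatten) := by
        rw [List.flatten_append]
        simp
      rw [hx]
      conv_rhs => rw [hy]
      have h8 := L_append_ge (rs.flatten ++ us.flatten) xs₂.flatten ((y.drop g).take w)
        (y.drop (g + w))
      have h9 := L_append_ge xs₁.flatten ((rs.flatten ++ us.flatten) ++ xs₂.flatten) (y.take g)
        ((y.drop g).take w ++ y.drop (g + w))
      omega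
    have h7' : (L xs₁.flatten (y.take g) : ℝ) +
        L (rs.flatten ++ us.flatten) ((y.drop g).take w) + L xs₂.flatten (y.drop (g + w)) ≤
        L (xs₁.flatten ++ rs.flatten ++ (us ++ xs₂).flatten) y := by exact_mod_cast h7
    have heq' : (L (xs₁.flatten ++ (us ++ xs₂).flatten) y : ℝ) = L xs₁.flatten (y.take g) +
          L us.flatten ((y.drop g).take w) + L xs₂.flatten (y.drop (g + w)) := by
      have : xs₁.flatten ++ (us ++ xs₂).flatten = xs₁.flatten ++ us.flatten ++ xs₂.flatten := by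
        rw [List.flatten_append]; simp
      rw [this, heq]
      push_cast
      ring
    linarith
  · intro p
    apply Exc_le_const hg0 hg1; intro xs₁ _
    apply Exc_le_const hg0 hg1; intro rs _
    apply Exc_le_const hg0 hg1; intro xs₂ _
    exact Ex_ind_le_one hk0 _ _

end Pool.Agent.LCSV
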