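import Pool.Agent.Work.MP_bec1e1_lv_helper6.PLO

/-!
# Block FIN_PUPA: the upper price in a trivial cone
-/

set_option autoImplicit false
set_option maxHeartbeats 400000

open Filter Topology
open scoped BigOperators

namespace Pool.Agent.LCSV

open Pool.Agent.LCSE

open PRH6 in
/-- **PUPA** -/
theorem stmt_PUPA (hH : Stmt_HUG) (hM : Stmt_MCD) (hL : Stmt_LIP) : Stmt_PUPA := by
  intro k C p q Pl Pu W hrho1 ε hε j J
  have hk := W.hk
  have hk0 : 0 < k := by omega
  rcases Nat.eq_zero_or_pos j with hj0 | hj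
  · subst hj0
    filter_upwards with s o θ hθ0 hθ1 N _ _
    unfold AV
    have h0 : (∑ p ∈ Finset.range (N + 1), Exc k s (gth k s o θ) p fun xs₁ =>
        Exc k s (gth k s o θ) 0 fun rs => Exc k s (gth k s o θ) (N - p) fun xs₂ =>
        Ex k (bb k s) fun y => ind ((L (xs₁.flatten ++ xs₂.flatten) y : ℝ) +
          (Pu + ε) * (((0 : ℕ) : ℝ) * s) <
          L (xs₁.flatten ++ rs.flatten ++ xs₂.flatten) y)) = 0 := by
      apply Finset.sum_eq_zero
      intro p _
      rw [← Exc_zero_fun (k := k) (s := s) (g := gth k s o θ) p]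
      apply Exc_congr; intro xs₁ _
      rw [Exc_zero]
      rw [← Exc_zero_fun (k := k) (s := s) (g := gth k s o θ) (N - p)]
      apply Exc_congr; intro xs₂ _
      rw [← Ex_zero_fun (k := k) (bb k s)]
      apply Ex_congr; intro y _
      apply ind_of_not
      simp
    rw [h0, zero_div]
    exact hε.le
  have hj' : (1 : ℝ) ≤ j := by exact_mod_cast hj
  obtain ⟨u₀, hu₀, hu₁, hd⟩ := W.pr.dHi hrho1 (ε / 4) (by linarith)
  have hju : (j : ℝ) < j / u₀ := by
    rw [lt_div_iff₀ hu₀]
    nlinarith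
  have hceil : j < ⌈(j : ℝ) / u₀⌉₊ := by
    have : (j : ℝ) < (⌈(j : ℝ) / u₀⌉₊ : ℕ) := lt_of_lt_of_le hju (Nat.le_ceil _)
    exact_mod_cast this
  obtain ⟨B, hB⟩ : ∃ B : ℕ, ⌈(j : ℝ) / u₀⌉₊ = j + B :=
    ⟨⌈(j : ℝ) / u₀⌉₊ - j, by omega⟩
  have hB1 : 1 ≤ B := by omega
  have hB1' : (1 : ℝ) ≤ B := by exact_mod_cast hB1
  have hAj : (j : ℝ) / u₀ ≤ (j : ℝ) + B := by
    have := Nat.le_ceil ((j : ℝ) / u₀)
    rw [hB] at this
    exact_mod_cast this
  have hphi := W.phi
  set A : ℝ := (j : ℝ) + B with hA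
  have hA0 : 0 < A := by rw [hA]; positivity
  -- concavity
  have hconc : Phi k A A - Phi k B A ≤ (Pu + ε / 4) * j := by
    set l : ℝ := (j : ℝ) / A / u₀ with hl
    have hl0 : 0 ≤ l := by positivity
    have hl1 : l ≤ 1 := by
      rw [hl, div_div, mul_comm, ← div_div, div_le_one hA0]
      exact hAj
    have hlu : l * u₀ = j / A := by rw [hl]; field_simp
    have hs := hphi.superadd ((1 - l) * 1) ((1 - l) * 1) (l * (1 - u₀)) (l * 1)
      (by linarith) (by linarith) (mul_nonneg hl0 (by linarith)) (by linarith)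
    rw [hphi.hom (1 - l) 1 1 (by linarith) (by norm_num) (by norm_num),
      hphi.hom l (1 - u₀) 1 hl0 (by linarith) (by norm_num)] at hs
    have e1 : (1 - l) * 1 + l * (1 - u₀) = 1 - l * u₀ := by ring
    have e2 : (1 - l) * 1 + l * 1 = 1 := by ring
    rw [e1, e2] at hs
    have h1 : Phi k 1 1 - Phi k (1 - l * u₀) 1 ≤ (Pu + ε / 4) * (l * u₀) := by
      have h2 := mul_le_mul_of_nonneg_left hd hl0
      have e6 : l * (Phi k 1 1 - Phi k (1 - u₀) 1) = l * Phi k 1 1 - l * Phi k (1 - u₀) 1 := by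
        ring
      have e7 : l * ((Pu + ε / 4) * u₀) = (Pu + ε / 4) * (l * u₀) := by ring
      linarith
    have e3 : Phi k A A = A * Phi k 1 1 := by
      rw [← hphi.hom A 1 1 hA0.le (by norm_num) (by norm_num), mul_one]
    have e4 : Phi k B A = A * Phi k (1 - l * u₀) 1 := by
      have e5 : A * (1 - l * u₀) = B := by
        rw [hlu, hA]
        have : (j : ℝ) + B ≠ 0 := by positivity
        field_simp
        ring
      have h0 : 0 ≤ 1 - l * u₀ := by
        have : 0 ≤ A * (1 - l * u₀) := by rw [e5]; positivity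
        exact nonneg_of_mul_nonneg_right this hA0
      rw [← hphi.hom A (1 - l * u₀) 1 hA0.le h0 (by norm_num), e5, mul_one]
    rw [e3, e4]
    calc A * Phi k 1 1 - A * Phi k (1 - l * u₀) 1
        = A * (Phi k 1 1 - Phi k (1 - l * u₀) 1) := by ring
      _ ≤ A * ((Pu + ε / 4) * (l * u₀)) := mul_le_mul_of_nonneg_left h1 hA0.le
      _ = _ := by rw [hlu]; field_simp
  obtain ⟨η, hη, hcmp⟩ := compare hM hL W j B hj hB1 (c := A) (ε := ε) hA0.le hε
  set ε₁ : ℝ := min (min (ε * j / 32) 1) (ε / 4) with hε₁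
  have hε₁0 : 0 < ε₁ := by
    have : 0 < ε * j / 32 := by positivity
    exact lt_min (lt_min this one_pos) (by linarith)
  filter_upwards [hcmp, hH k C p q Pl Pu W ε₁ hε₁0 (j + B) (by omega) 0 (J + j) η hη,
    NN_ev hk (2 * (B : ℝ) / ε) J, NN_ev hk ((B : ℝ) + j) J] with s hs1 hs2 hs3 hs4 o θ hθ0 hθ1 N
    hN1 hN2
  obtain ⟨hg0, hg1⟩ := dens hk (o := o) hθ0 hθ1
  have hBN : B + j ≤ N := by
    have := hs4 N hN1
    exact_mod_cast this
  have hBN2 : 2 * (B : ℝ) ≤ ε * (N + 1) := by
    have := hs3 N hN1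
    rw [div_le_iff₀ hε] at this
    nlinarith
  set Q : List (Fin k) → List (Fin k) → List (Fin k) → Prop := fun _ z v =>
    |(v.length : ℝ) - A * s| ≤ min (ε * j / 32) 1 * s ∧
      (L (z.drop (j * s)) v : ℝ) + (Pu + ε) * (j * s) < L z v with hQ
  have hQp : ∀ w : ℕ, (w : ℝ) ≤ (rho k + 1) * (((j + B : ℕ) : ℝ) * s) →
      (Ex k (0 * s) fun r => Ex k ((j + B) * s) fun u =>
      Ex k w fun v => ind (Q r u v)) ≤ Real.exp (-(η * s)) := by
    intro w _
    rw [zero_mul, Ex_zero, add_mul, Ex_append]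
    by_cases hw : |(w : ℝ) - A * s| ≤ min (ε * j / 32) 1 * s
    · refine le_trans ?_ (hs1 w hw).2
      apply Ex_mono; intro r hr; apply Ex_mono; intro u _; apply Ex_mono; intro v _
      apply ind_mono
      rintro ⟨_, h2⟩
      rw [List.drop_left' hr] at h2
      refine lt_of_le_of_lt ?_ h2
      have hs0 : (0 : ℝ) ≤ s := Nat.cast_nonneg _
      have h3 : Phi k A A - Phi k B A + 5 / 8 * (ε * j) ≤ (Pu + ε) * j := by
        have : 0 ≤ ε * j := by positivity
        linarith
      have h4 := mul_le_mul_of_nonneg_right h3 hs0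
      have h5 : (j : ℝ) + B = A := hA.symm
      linarith
    · have h0 : (Ex k (j * s) fun r => Ex k (B * s) fun u => Ex k w fun v =>
          ind (Q [] (r ++ u) v)) =
          Ex k (j * s) fun _ => Ex k (B * s) fun _ => Ex k w fun _ => (0 : ℝ) := by
        apply Ex_congr; intro r _; apply Ex_congr; intro u _; apply Ex_congr; intro v hv
        apply ind_of_not
        rintro ⟨h1, _⟩
        rw [hv] at h1
        exact hw h1
      rw [h0]
      simp only [Ex_zero_fun]
      positivity
  have hug := hs2 o θ hθ0 hθ1 (N + j) (by omega) (by omega) Q hQp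
  unfold AV
  apply sum_positions (A := B) (by omega) (ε₁ := ε / 2) _ _ le_rfl hBN2
  · have hN' : ε₁ * ((N + j : ℕ) + 1) ≤ ε / 2 * (N + 1) := by
      have h1 : ε₁ ≤ ε / 4 := min_le_right _ _
      have h2 : ((B : ℝ) + j) ≤ N := by exact_mod_cast hBN
      have h3 : (((N + j : ℕ) : ℝ) + 1) ≤ 2 * ((N : ℝ) + 1) := by push_cast; linarith
      calc ε₁ * (((N + j : ℕ) : ℝ) + 1) ≤ ε / 4 * (((N + j : ℕ) : ℝ) + 1) :=
            mul_le_mul_of_nonneg_right h1 (by positivity)
        _ ≤ ε / 4 * (2 * ((N : ℝ) + 1)) := mul_le_mul_of_nonneg_left h3 (by linarith)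
        _ = _ := by ring
    refine le_trans ?_ (hug.trans hN')
    rw [show N + j + 1 - (j + B) = N + 1 - B by omega]
    refine Finset.sum_le_sum fun p hp => ?_
    have hp' : p < N + 1 - B := Finset.mem_range.mp hp
    have hsplit : N - p = B + (N - B - p) := by omega
    apply Exc_mono hg0; intro xs₁ _
    rw [Exc_zero, Exc_append j B, show N + j - (j + B) - p = N - B - p by omega]
    apply Exc_mono hg0; intro rs hrs
    rw [hsplit, Exc_append B]
    apply Exc_mono hg0; intro us _
    apply Exc_mono hg0; intro xs₂ _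
    apply Ex_mono; intro y _
    apply ind_mono
    intro hlt
    rintro ⟨g, w, hgw, hw, hnQ, heq⟩
    have hv : ((y.drop g).take w).length = w := by
      rw [List.length_take, List.length_drop]; omega
    have hrl : rs.flatten.length = j * s := hrs.flatten_length
    have hdrop : ((rs ++ us).flatten).drop (j * s) = us.flatten := by
      rw [List.flatten_append, List.drop_left' hrl]
    have hwA : |(w : ℝ) - A * s| ≤ min (ε * j / 32) 1 * s := by
      have e5 : A * s = rho k * (((j + B : ℕ) : ℝ) * s) := by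
        rw [hrho1, hA]; push_cast; ring
      rw [e5]
      refine hw.trans ?_
      exact mul_le_mul_of_nonneg_right (min_le_left _ _) (Nat.cast_nonneg _)
    have h6 : (L (rs ++ us).flatten ((y.drop g).take w) : ℝ) ≤
        L us.flatten ((y.drop g).take w) + (Pu + ε) * (j * s) := by
      by_contra hcon
      push Not at hcon
      refine hnQ ⟨by rw [hv]; exact hwA, ?_⟩
      rw [hdrop]
      exact hcon
    have h7 : L xs₁.flatten (y.take g) + L us.flatten ((y.drop g).take w) +
        L xs₂.flatten (y.drop (g + w)) ≤ L (xs₁.flatten ++ (us ++ xs₂).flatten) y := by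
      have hy : y = y.take g ++ ((y.drop g).take w ++ y.drop (g + w)) := by
        rw [← List.drop_drop, List.take_append_drop, List.take_append_drop]
      rw [List.flatten_append]
      conv_rhs => rw [hy]
      have h8 := L_append_ge us.flatten xs₂.flatten ((y.drop g).take w) (y.drop (g + w))
      have h9 := L_append_ge xs₁.flatten (us.flatten ++ xs₂.flatten) (y.take g)
        ((y.drop g).take w ++ y.drop (g + w))
      omega
    have h7' : (L xs₁.flatten (y.take g) : ℝ) +
        L us.flatten ((y.drop g).take w) + L xs₂.flatten (y.drop (g + w)) ≤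
        L (xs₁.flatten ++ (us ++ xs₂).flatten) y := by exact_mod_cast h7
    have heq' : (L (xs₁.flatten ++ rs.flatten ++ (us ++ xs₂).flatten) y : ℝ) =
          L xs₁.flatten (y.take g) +
          L (rs ++ us).flatten ((y.drop g).take w) + L xs₂.flatten (y.drop (g + w)) := by
      have : xs₁.flatten ++ rs.flatten ++ (us ++ xs₂).flatten =
          xs₁.flatten ++ (rs ++ us).flatten ++ xs₂.flatten := by
        rw [List.flatten_append, List.flatten_append]; simp
      rw [this, heq]
      push_cast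
      ring
    linarith
  · intro p
    apply Exc_le_const hg0 hg1; intro xs₁ _
    apply Exc_le_const hg0 hg1; intro rs _
    apply Exc_le_const hg0 hg1; intro xs₂ _
    exact Ex_ind_le_one hk0 _ _

end Pool.Agent.LCSV
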