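import Pool.Agent.Work.MP_bec1e1_lv_helper15.Tools0

/-!
# Block PHI2, part a: greedy lower bounds for the mean LCS near the saturated direction
-/

set_option autoImplicit false
set_option maxHeartbeats 400000

open Filter Topology
open scoped BigOperators

namespace Pool.Agent.LCSV

open Pool.Agent.LCSE

namespace P2H6

variable {k : ℕ}

lemma ind_true {P : Prop} (h : P) : ind P = 1 := if_pos h
lemma ind_false {P : Prop} (h : ¬ P) : ind P = 0 := if_neg h
lemma ind_nonneg (P : Prop) : 0 ≤ ind P := by
  unfold ind; split_ifs <;> norm_num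
lemma ind_and (P Q : Prop) : ind (P ∧ Q) = ind P * ind Q := by
  by_cases hP : P <;> by_cases hQ : Q <;> simp [ind, hP, hQ]
lemma ind_congr {P Q : Prop} (h : P ↔ Q) : ind P = ind Q := by rw [propext h]

/-- all letters of `y` are in `S` -/
def InS (S : Finset (Fin k)) (y : List (Fin k)) : Prop := ∀ d ∈ y, d ∈ S

lemma ind_InS_cons (S : Finset (Fin k)) (d : Fin k) (y : List (Fin k)) :
    ind (InS S (d :: y)) = ind (d ∈ S) * ind (InS S y) := by
  rw [← ind_and]
  exact ind_congr (by simp [InS])

lemma mass_InS (S : Finset (Fin k)) (b : ℕ) :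
    Ex k b (fun y => ind (InS S y)) = ((S.card : ℝ) / k) ^ b := by
  induction b with
  | zero => simp [InS, ind]
  | succ b ih =>
    rw [Ex_succ]
    have h : ∀ c : Fin k, Ex k b (fun w => ind (InS S (c :: w))) =
        ind (c ∈ S) * ((S.card : ℝ) / k) ^ b := by
      intro c
      rw [← ih, ← Ex_const_mul]
      exact Ex_congr fun w _ => ind_InS_cons S c w
    simp only [h]
    rw [← Finset.sum_mul]
    have : ∑ c : Fin k, ind (c ∈ S) = S.card := by
      rw [← Finset.sum_subset (Finset.subset_univ S) (fun c _ hc => ind_false hc),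
        Finset.sum_congr rfl (fun c hc => ind_true hc)]
      simp
    rw [this, pow_succ]
    ring

/-- the potential -/
noncomputable def hh (κ s a b : ℝ) : ℝ :=
  a - ((a - b / κ + s) ^ 2 + b * ((1 / κ) * (1 - 1 / κ))) / (4 * s)

lemma hh_step {κ s : ℝ} (hκ : κ ≠ 0) (hs : s ≠ 0) (a b : ℝ) :
    (1 / κ) * (1 + hh κ s a b) + (1 - 1 / κ) * hh κ s (a + 1) b = hh κ s (a + 1) (b + 1) := by
  unfold hh
  field_simp
  ring

lemma hh_right_zero (κ : ℝ) {s : ℝ} (hs : 0 < s) (a : ℝ) : hh κ s a 0 ≤ 0 := by
  unfold hh
  simp only [zero_div, sub_zero, zero_mul, add_zero]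
  rw [sub_nonpos, le_div_iff₀ (by positivity)]
  nlinarith [sq_nonneg (a - s)]

lemma hh_left_zero {κ s b : ℝ} (hκ : 1 ≤ κ) (hs : 0 < s) (hb : 0 ≤ b) : hh κ s 0 b ≤ 0 := by
  unfold hh
  have h1 : 0 ≤ 1 - 1 / κ := by
    rw [sub_nonneg, div_le_one (by linarith)]
    exact hκ
  have : 0 ≤ ((0 - b / κ + s) ^ 2 + b * ((1 / κ) * (1 - 1 / κ))) / (4 * s) := by positivity
  linarith

/-- greedy lower bound, letters restricted to a set `S` -/
lemma greedy (S : Finset (Fin k)) (hS : 1 ≤ S.card) {s : ℝ} (hs : 0 < s) (b : ℕ) :
    ∀ x : List (Fin k), InS S x →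
    ((S.card : ℝ) / k) ^ b * hh S.card s x.length b ≤
      Ex k b (fun y => ind (InS S y) * (L x y : ℝ)) := by
  have hκ : (1 : ℝ) ≤ S.card := by exact_mod_cast hS
  have hk : 0 < k := by
    obtain ⟨c, _⟩ := Finset.card_pos.mp (show 0 < S.card by omega)
    exact c.pos
  have hk' : (0 : ℝ) < k := by exact_mod_cast hk
  induction b with
  | zero =>
    intro x _
    simp only [pow_zero, one_mul, Ex_zero, L_nil_right, Nat.cast_zero, mul_zero]
    exact hh_right_zero _ hs _
  | succ b ih =>
    intro x hx
    cases x with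
    | nil =>
      have h1 : Ex k (b + 1) (fun y => ind (InS S y) * ((L ([] : List (Fin k)) y : ℕ) : ℝ)) = 0 := by
        simp only [L_nil_left, Nat.cast_zero, mul_zero]
        exact Ex_zero_fun _
      rw [h1]
      have h2 := hh_left_zero (b := ((b + 1 : ℕ) : ℝ)) hκ hs (Nat.cast_nonneg _)
      simp only [List.length_nil, Nat.cast_zero]
      exact mul_nonpos_of_nonneg_of_nonpos (by positivity) h2
    | cons c x =>
      have hc : c ∈ S := hx c (by simp)
      have hx' : InS S x := fun d hd => hx d (by simp [hd])
      rw [Ex_succ]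
      have h0 := ih x hx'
      have h1 := ih (c :: x) hx
      have hd : ∀ d : Fin k, ind (d ∈ S) * (((S.card : ℝ) / k) ^ b *
          (if d = c then 1 + hh S.card s x.length b else hh S.card s (x.length + 1) b)) ≤
          Ex k b (fun w => ind (InS S (d :: w)) * (L (c :: x) (d :: w) : ℝ)) := by
        intro d
        by_cases hdS : d ∈ S
        · rw [ind_true hdS, one_mul]
          by_cases hdc : d = c
          · subst hdc
            rw [if_pos rfl]
            have : ((S.card : ℝ) / k) ^ b * (1 + hh S.card s x.length b) ≤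
                Ex k b (fun w => ind (InS S w)) + Ex k b (fun y => ind (InS S y) * (L x y : ℝ)) := by
              rw [mass_InS, mul_add, mul_one]
              exact add_le_add_right h0 _
            refine this.trans ?_
            rw [← Ex_add]
            apply Ex_mono
            intro w _
            rw [ind_InS_cons, ind_true hdS, one_mul]
            have h2 : ((L x w : ℕ) : ℝ) + 1 ≤ L (d :: x) (d :: w) := by
              exact_mod_cast L_cons_cons_self d x w
            nlinarith [ind_nonneg (InS S w)]
          · rw [if_neg hdc]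
            refine le_trans ?_ (h1.trans ?_)
            · simp
            · apply Ex_mono
              intro w _
              rw [ind_InS_cons, ind_true hdS, one_mul]
              have h2 : ((L (c :: x) w : ℕ) : ℝ) ≤ L (c :: x) (d :: w) := by
                exact_mod_cast L_cons_right d (c :: x) w
              exact mul_le_mul_of_nonneg_left h2 (ind_nonneg _)
        · rw [ind_false hdS, zero_mul]
          exact Ex_nonneg fun w _ => mul_nonneg (ind_nonneg _) (Nat.cast_nonneg _)
      have hsum := Finset.sum_le_sum fun d (_ : d ∈ (Finset.univ : Finset (Fin k))) => hd d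
      have hval : ∑ d : Fin k, ind (d ∈ S) * (((S.card : ℝ) / k) ^ b *
          (if d = c then 1 + hh S.card s x.length b else hh S.card s (x.length + 1) b)) =
          ((S.card : ℝ) / k) ^ b * (1 + hh S.card s x.length b +
            (S.card - 1) * hh S.card s (x.length + 1) b) := by
        classical
        have e1 : ∀ d : Fin k, ind (d ∈ S) * (((S.card : ℝ) / k) ^ b *
          (if d = c then 1 + hh S.card s x.length b else hh S.card s (x.length + 1) b)) =
          if d ∈ S then (((S.card : ℝ) / k) ^ b *
          (if d = c then 1 + hh S.card s x.length b else hh S.card s (x.length + 1) b)) else 0 := by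
          intro d
          unfold ind
          split_ifs <;> simp
        rw [Finset.sum_congr rfl fun d _ => e1 d, ← Finset.sum_filter, Finset.filter_univ_mem,
          ← Finset.mul_sum, ← Finset.add_sum_erase S _ hc, if_pos rfl]
        congr 2
        rw [Finset.sum_congr rfl (g := fun _ => hh S.card s (x.length + 1) b)]
        · rw [Finset.sum_const, Finset.card_erase_of_mem hc, nsmul_eq_mul]
          push_cast [Nat.cast_sub hS]
          ring
        · intro d hd
          rw [if_neg (Finset.ne_of_mem_erase hd)]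
      rw [hval] at hsum
      have hstep := hh_step (κ := S.card) (s := s) (by linarith) hs.ne' x.length b
      have hfin : ((S.card : ℝ) / k) ^ (b + 1) * hh S.card s ((c :: x).length) ((b + 1 : ℕ) : ℝ) =
          ((S.card : ℝ) / k) ^ b * (1 + hh S.card s x.length b +
            (S.card - 1) * hh S.card s (x.length + 1) b) / k := by
        have e2 : ((c :: x).length : ℝ) = (x.length : ℝ) + 1 := by simp
        rw [e2, Nat.cast_succ, ← hstep, pow_succ]
        have : (S.card : ℝ) ≠ 0 := by linarith
        field_simp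
      rw [hfin]
      exact div_le_div_of_nonneg_right hsum hk'.le

/-- greedy lower bound -/
lemma greedy_all (hk : 1 ≤ k) {s : ℝ} (hs : 0 < s) (b : ℕ) (x : List (Fin k)) :
    hh k s x.length b ≤ Ex k b (fun y => (L x y : ℝ)) := by
  have h := greedy (k := k) Finset.univ (by simpa using hk) hs b x (fun _ _ => Finset.mem_univ _)
  have hk' : (k : ℝ) ≠ 0 := by
    have : (0 : ℝ) < k := by exact_mod_cast hk
    exact this.ne'
  simp only [Finset.card_univ, Fintype.card_fin, div_self hk', one_pow, one_mul] at h
  refine h.trans (le_of_eq (Ex_congr fun y _ => ?_))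
  rw [ind_true (P := InS Finset.univ y) (fun _ _ => Finset.mem_univ _), one_mul]

/-- scanning the columns until the letter `c` is found -/
lemma scan (hk : 0 < k) (c : Fin k) (f₀ : List (Fin k) → ℝ) (H₀ H₁ : ℕ → ℝ) (N : ℕ)
    (h₀ : ∀ b, b < N → H₀ b ≤ Ex k b f₀)
    (hH : ∀ b, H₁ (b + 1) ≤ (1 / (k : ℝ)) * (1 + H₀ b) + (1 - 1 / (k : ℝ)) * H₁ b)
    (b : ℕ) : ∀ (m : ℕ), m + b ≤ N → ∀ f : List (Fin k) → ℝ,
    (∀ u y, 1 + f₀ y ≤ f (u ++ c :: y)) →
    H₁ (m + b) + Ex k m (fun u => ind (c ∉ u) * (Ex k b (fun y => f (u ++ y)) - H₁ b)) ≤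
      Ex k (m + b) f := by
  have hk' : (0 : ℝ) < k := by exact_mod_cast hk
  intro m
  induction m with
  | zero =>
    intro _ f _
    simp only [Ex_zero, Nat.zero_add, List.nil_append]
    rw [ind_true (by simp)]
    linarith
  | succ m ih =>
    intro hm f hf
    rw [show m + 1 + b = (m + b) + 1 by ring, Ex_succ (m + b)]
    have hd : ∀ d : Fin k, (if d = c then 1 + H₀ (m + b) else H₁ (m + b)) +
        Ex k m (fun u => ind (c ∉ d :: u) * (Ex k b (fun y => f (d :: u ++ y)) - H₁ b)) ≤
        Ex k (m + b) (fun y => f (d :: y)) := by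
      intro d
      by_cases hdc : d = c
      · subst hdc
        rw [if_pos rfl]
        have h1 : Ex k m (fun u => ind (d ∉ d :: u) *
            (Ex k b (fun y => f (d :: u ++ y)) - H₁ b)) = 0 := by
          rw [← Ex_zero_fun (k := k) m]
          apply Ex_congr
          intro u _
          rw [ind_false (by simp), zero_mul]
        rw [h1, add_zero]
        have h2 : 1 + H₀ (m + b) ≤ Ex k (m + b) (fun y => 1 + f₀ y) := by
          rw [Ex_add, Ex_const hk]
          exact add_le_add_right (h₀ _ (by omega)) _
        exact h2.trans (Ex_mono fun y _ => hf [] y)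
      · rw [if_neg hdc]
        have h1 := ih (by omega) (fun y => f (d :: y)) (fun u y => hf (d :: u) y)
        refine le_trans (le_of_eq ?_) h1
        congr 1
        apply Ex_congr
        intro u _
        rw [ind_congr (show c ∉ d :: u ↔ c ∉ u by
          simp [List.mem_cons, Ne.symm hdc])]
        rfl
    have hsum := Finset.sum_le_sum fun d (_ : d ∈ (Finset.univ : Finset (Fin k))) => hd d
    rw [Finset.sum_add_distrib] at hsum
    have hval : ∑ d : Fin k, (if d = c then 1 + H₀ (m + b) else H₁ (m + b)) =
        1 + H₀ (m + b) + (k - 1) * H₁ (m + b) := by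
      rw [← Finset.add_sum_erase Finset.univ _ (Finset.mem_univ c), if_pos rfl]
      congr 1
      rw [Finset.sum_congr rfl (g := fun _ => H₁ (m + b))]
      · rw [Finset.sum_const, Finset.card_erase_of_mem (Finset.mem_univ c), nsmul_eq_mul]
        simp [Nat.cast_sub hk]
      · intro d hd
        rw [if_neg (Finset.ne_of_mem_erase hd)]
    rw [hval] at hsum
    have h3 : H₁ (m + b + 1) ≤ (1 + H₀ (m + b) + (k - 1) * H₁ (m + b)) / k := by
      refine (hH _).trans (le_of_eq ?_)
      field_simp
    calc _ ≤ (1 + H₀ (m + b) + (k - 1) * H₁ (m + b)) / k +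
          (∑ d : Fin k, Ex k m (fun u => ind (c ∉ d :: u) *
            (Ex k b (fun y => f (d :: u ++ y)) - H₁ b))) / k := add_le_add h3 (le_of_eq rfl)
      _ = _ := by rw [← add_div]
      _ ≤ _ := div_le_div_of_nonneg_right hsum hk'.le

end P2H6

end Pool.Agent.LCSV
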