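import Pool.Agent.Work.MP_bec1e1_lv_helper6.PHI2a

/-!
# Block PHI2, part b: the strategy which drops rare rows
-/

set_option autoImplicit false
set_option maxHeartbeats 400000

open Filter Topology
open scoped BigOperators

namespace Pool.Agent.LCSV

open Pool.Agent.LCSE

namespace P2H6

variable {k : ℕ}

/-- potential: `j` blocks and `i` rows left, `b` columns left -/
noncomputable def HH (g w V κ σ s i j b : ℝ) : ℝ :=
  g * j + i - ((w * j + κ * i - b + σ) ^ 2 + V * j + κ * (κ - 1) * i) / (4 * s)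

lemma HH_base {κ s : ℝ} (hκ : κ ≠ 0) (hs : s ≠ 0) (g w V σ i j b : ℝ) :
    (1 / κ) * (1 + HH g w V κ σ s i j b) + (1 - 1 / κ) * HH g w V κ σ s (i + 1) j b =
      HH g w V κ σ s (i + 1) j (b + 1) := by
  unfold HH
  field_simp
  ring

lemma HH_block {κ s q R G M : ℝ} (hs : 0 < s) (hq : 0 ≤ q) (hκ : 1 ≤ κ) (hR : 0 ≤ R) (hM : 0 ≤ M)
    (σ j b : ℝ) :
    HH (R - q * (R - G)) (κ * R * (1 - q)) ((κ * R) ^ 2 + κ * (κ - 1) * R) κ σ s 0 (j + 1) b ≤
    HH (R - q * (R - G)) (κ * R * (1 - q)) ((κ * R) ^ 2 + κ * (κ - 1) * R) κ σ s R j b +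
      q * (G + (HH (R - q * (R - G)) (κ * R * (1 - q)) ((κ * R) ^ 2 + κ * (κ - 1) * R) κ σ s 0 j
          (b - M) -
        HH (R - q * (R - G)) (κ * R * (1 - q)) ((κ * R) ^ 2 + κ * (κ - 1) * R) κ σ s R j
          (b - M))) := by
  have key : HH (R - q * (R - G)) (κ * R * (1 - q)) ((κ * R) ^ 2 + κ * (κ - 1) * R) κ σ s R j b +
      q * (G + (HH (R - q * (R - G)) (κ * R * (1 - q)) ((κ * R) ^ 2 + κ * (κ - 1) * R) κ σ s 0 j
          (b - M) -
        HH (R - q * (R - G)) (κ * R * (1 - q)) ((κ * R) ^ 2 + κ * (κ - 1) * R) κ σ s R j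
          (b - M))) -
      HH (R - q * (R - G)) (κ * R * (1 - q)) ((κ * R) ^ 2 + κ * (κ - 1) * R) κ σ s 0 (j + 1) b =
      ((κ * R * (1 - q)) ^ 2 + q * (2 * M * (κ * R) + (κ * R) ^ 2 + κ * (κ - 1) * R)) / (4 * s) := by
    unfold HH
    field_simp
    ring
  have : 0 ≤ ((κ * R * (1 - q)) ^ 2 + q * (2 * M * (κ * R) + (κ * R) ^ 2 + κ * (κ - 1) * R)) /
      (4 * s) := by
    have h1 : 0 ≤ κ - 1 := by linarith
    have h2 : 0 ≤ κ := by linarith
    positivity
  linarith

lemma HH_neg {g w V κ s M i j b : ℝ} (hs : 0 < s) (hκ : 1 ≤ κ) (hgw : g ≤ w) (hw : 0 ≤ w)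
    (hV : 0 ≤ V) (hi : 0 ≤ i) (hj : 0 ≤ j) (hb : b ≤ M) :
    HH g w V κ (s + M) s i j b ≤ 0 := by
  unfold HH
  rw [sub_nonpos, le_div_iff₀ (by positivity)]
  have h1 : 0 ≤ w * j + κ * i := by positivity
  have h2 : g * j + i ≤ w * j + κ * i := by nlinarith
  have h3 : 0 ≤ V * j + κ * (κ - 1) * i := by
    have : 0 ≤ κ - 1 := by linarith
    positivity
  have h4 : (w * j + κ * i + s) ^ 2 ≤ (w * j + κ * i - b + (s + M)) ^ 2 := by
    apply pow_le_pow_left₀ (by positivity)
    linarith
  nlinarith [sq_nonneg (w * j + κ * i - s)]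

lemma notMem_iff_InS (c : Fin k) (u : List (Fin k)) :
    c ∉ u ↔ InS (Finset.univ.erase c) u := by
  constructor
  · intro h d hd
    rw [Finset.mem_erase]
    exact ⟨fun e => h (e ▸ hd), Finset.mem_univ _⟩
  · intro h hc
    exact (Finset.notMem_erase c _) (h c hc)

lemma mass_notMem (c : Fin k) (b : ℕ) :
    Ex k b (fun y => ind (c ∉ y)) = (((k : ℝ) - 1) / k) ^ b := by
  have h := mass_InS (k := k) (Finset.univ.erase c) b
  have hc : ((Finset.univ.erase c : Finset (Fin k)).card : ℝ) = (k : ℝ) - 1 := by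
    rw [Finset.card_erase_of_mem (Finset.mem_univ c)]
    have : 0 < k := c.pos
    simp [Nat.cast_sub (show 1 ≤ k from this)]
  rw [hc] at h
  rw [← h]
  exact Ex_congr fun y _ => ind_congr (notMem_iff_InS c y)

/-- parameters of the strategy -/
structure Par (k r M : ℕ) (G : ℝ) : Prop where
  hk : 2 ≤ k
  hM : 1 ≤ M
  hG : G ≤ r
  luck : ∀ c : Fin k, (((k : ℝ) - 1) / k) ^ (r + M) * G ≤
    Ex k r (fun x => ind (c ∉ x) * Ex k M (fun u => ind (c ∉ u) * (L x u : ℝ)))

/-- probability of a lucky block -/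
noncomputable def qq (k r M : ℕ) : ℝ := (((k : ℝ) - 1) / k) ^ (r + M)

lemma qq_nonneg {k r M : ℕ} (hk : 2 ≤ k) : 0 ≤ qq k r M := by
  have : (2 : ℝ) ≤ k := by exact_mod_cast hk
  unfold qq
  have : 0 ≤ (k : ℝ) - 1 := by linarith
  positivity

lemma qq_pos {k r M : ℕ} (hk : 2 ≤ k) : 0 < qq k r M := by
  have : (2 : ℝ) ≤ k := by exact_mod_cast hk
  unfold qq
  have : 0 < (k : ℝ) - 1 := by linarith
  positivity

lemma qq_le {k r M : ℕ} (hk : 2 ≤ k) (hM : 1 ≤ M) : qq k r M ≤ 1 - 1 / k := by
  have h2 : (2 : ℝ) ≤ k := by exact_mod_cast hk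
  have h3 : ((k : ℝ) - 1) / k = 1 - 1 / k := by field_simp
  have h4 : (0 : ℝ) ≤ 1 - 1 / k := by
    rw [sub_nonneg, div_le_one (by linarith)]; linarith
  have h5 : (1 : ℝ) - 1 / k ≤ 1 := by
    have : (0 : ℝ) ≤ 1 / k := by positivity
    linarith
  unfold qq
  rw [h3]
  calc (1 - 1 / (k : ℝ)) ^ (r + M) ≤ (1 - 1 / (k : ℝ)) ^ 1 :=
        pow_le_pow_of_le_one h4 h5 (by omega)
    _ = _ := pow_one _

/-- the potential with all parameters -/
noncomputable def HP (k r M : ℕ) (G s : ℝ) (i j : ℕ) (b : ℝ) : ℝ :=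
  HH (((r : ℝ) + 1) - qq k r M * (((r : ℝ) + 1) - G)) (k * ((r : ℝ) + 1) * (1 - qq k r M))
    ((k * ((r : ℝ) + 1)) ^ 2 + k * ((k : ℝ) - 1) * ((r : ℝ) + 1)) k (s + M) s i j b

lemma strategy {r M : ℕ} {G : ℝ} (P : Par k r M G) {s : ℝ} (hs : 0 < s) :
    ∀ (b j : ℕ) (z : List (Fin k)), HP k r M G s z.length j b ≤
      Ex k ((r + 1) * j) (fun x => Ex k b (fun y => (L (z ++ x) y : ℝ))) := by
  have hk := P.hk
  have hk2 : (2 : ℝ) ≤ k := by exact_mod_cast hk
  have hk0 : 0 < k := by omega
  have hq0 := qq_nonneg (r := r) (M := M) hk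
  have hq1 := qq_le (r := r) hk P.hM
  have hR : (0 : ℝ) ≤ (r : ℝ) + 1 := by positivity
  have hkq : (1 : ℝ) ≤ k * (1 - qq k r M) := by
    have : 1 / (k : ℝ) ≤ 1 - qq k r M := by linarith
    calc (1 : ℝ) = k * (1 / k) := by field_simp
      _ ≤ _ := mul_le_mul_of_nonneg_left this (by positivity)
  have hw : 0 ≤ (k : ℝ) * ((r : ℝ) + 1) * (1 - qq k r M) := by nlinarith
  have hgw : ((r : ℝ) + 1) - qq k r M * (((r : ℝ) + 1) - G) ≤
      k * ((r : ℝ) + 1) * (1 - qq k r M) := by
    have h1 : 0 ≤ qq k r M * (((r : ℝ) + 1) - G) := mul_nonneg hq0 (by linarith [P.hG])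
    nlinarith
  have hV : 0 ≤ (k * ((r : ℝ) + 1)) ^ 2 + k * ((k : ℝ) - 1) * ((r : ℝ) + 1) := by
    have : 0 ≤ (k : ℝ) - 1 := by linarith
    positivity
  have hneg : ∀ (i j b : ℕ), b ≤ M → HP k r M G s i j b ≤ 0 := by
    intro i j b hb
    exact HH_neg hs (by linarith) hgw hw hV (Nat.cast_nonneg _) (Nat.cast_nonneg _)
      (by exact_mod_cast hb)
  have hnonneg : ∀ (b j : ℕ) (z : List (Fin k)), 0 ≤
      Ex k ((r + 1) * j) (fun x => Ex k b (fun y => (L (z ++ x) y : ℝ))) := fun b j z =>
    Ex_nonneg fun x _ => Ex_nonneg fun y _ => Nat.cast_nonneg _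
  have hbase : ∀ (i j : ℕ) (b : ℕ), HP k r M G s (i + 1) j ((b + 1 : ℕ) : ℝ) ≤
      (1 / (k : ℝ)) * (1 + HP k r M G s i j b) + (1 - 1 / (k : ℝ)) * HP k r M G s (i + 1) j b := by
    intro i j b
    unfold HP
    push_cast
    rw [← HH_base (by positivity) hs.ne']
  intro b
  induction b using Nat.strong_induction_on with
  | _ b ih =>
  rcases Nat.lt_or_ge M b with hMb | hMb
  swap
  · intro j z
    exact (hneg _ _ _ hMb).trans (hnonneg b j z)
  -- nonempty words
  have hne : ∀ (j : ℕ) (c : Fin k) (z : List (Fin k)), HP k r M G s (z.length + 1) j b ≤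
      Ex k ((r + 1) * j) (fun x => Ex k b (fun y => (L (c :: z ++ x) y : ℝ))) := by
    intro j c z
    obtain ⟨b', rfl⟩ : ∃ b', b = 1 + b' := ⟨b - 1, by have := P.hM; omega⟩
    have h1 := scan hk0 c (fun y => Ex k ((r + 1) * j) (fun x => (L (z ++ x) y : ℝ)))
      (fun b => HP k r M G s z.length j b) (fun b => HP k r M G s (z.length + 1) j b) (1 + b')
      (fun b hb => by
        rw [Ex_comm]
        exact ih b hb j z)
      (fun b => hbase _ _ _) b' 1 le_rfl
      (fun y => Ex k ((r + 1) * j) (fun x => (L (c :: z ++ x) y : ℝ)))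
      (fun u y => by
        have e1 : (1 : ℝ) + Ex k ((r + 1) * j) (fun x => (L (z ++ x) y : ℝ)) =
            Ex k ((r + 1) * j) (fun x => 1 + (L (z ++ x) y : ℝ)) := by
          rw [Ex_add, Ex_const hk0]
        show (1 : ℝ) + Ex k ((r + 1) * j) (fun x => (L (z ++ x) y : ℝ)) ≤ _
        rw [e1]
        apply Ex_mono
        intro x _
        have h2 : L (z ++ x) y + 1 ≤ L (c :: z ++ x) (u ++ c :: y) :=
          (L_cons_cons_self c (z ++ x) y).trans
            (L_mono (List.Sublist.refl _) (List.sublist_append_right _ _))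
        have : ((L (z ++ x) y : ℕ) : ℝ) + 1 ≤ L (c :: z ++ x) (u ++ c :: y) := by exact_mod_cast h2
        linarith)
    rw [Ex_comm]
    refine le_trans ?_ h1
    have h3 : 0 ≤ Ex k 1 (fun u => ind (c ∉ u) * (Ex k b' (fun y =>
        Ex k ((r + 1) * j) (fun x => (L (c :: z ++ x) (u ++ y) : ℝ))) -
          HP k r M G s (z.length + 1) j b')) := by
      apply Ex_nonneg
      intro u _
      apply mul_nonneg (ind_nonneg _)
      rw [sub_nonneg]
      have h4 := ih b' (by omega) j (c :: z)
      rw [Ex_comm] at h4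
      refine h4.trans (Ex_mono fun y _ => Ex_mono fun x _ => ?_)
      exact_mod_cast L_mono (List.Sublist.refl _) (List.sublist_append_right _ _)
    show HP k r M G s (z.length + 1) j ((1 + b' : ℕ) : ℝ) ≤ _
    linarith
  intro j z
  cases z with
  | cons c z => exact hne j c z
  | nil =>
  cases j with
  | zero =>
    simp only [Nat.mul_zero, Ex_zero, List.append_nil, L_nil_left, Nat.cast_zero, List.length_nil]
    rw [Ex_zero_fun]
    unfold HP HH
    simp only [Nat.cast_zero, mul_zero, add_zero, zero_sub]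
    rw [neg_nonpos]
    positivity
  | succ j =>
    have hlen : (r + 1) * (j + 1) = (r + (r + 1) * j) + 1 := by ring
    rw [hlen, Ex_succ]
    obtain ⟨b', rfl⟩ : ∃ b', b = M + b' := ⟨b - M, by omega⟩
    set ΔH : ℝ := HP k r M G s 0 j b' - HP k r M G s (r + 1) j b' with hΔ
    have hc : ∀ c : Fin k, HP k r M G s (r + 1) j ((M + b' : ℕ) : ℝ) + qq k r M * (G + ΔH) ≤
        Ex k (r + (r + 1) * j) (fun w => Ex k (M + b') (fun y => (L ([] ++ c :: w) y : ℝ))) := by
      intro c
      rw [Ex_append]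
      have hx : ∀ x' : List (Fin k), x'.length = r →
          HP k r M G s (r + 1) j ((M + b' : ℕ) : ℝ) +
            ind (c ∉ x') * Ex k M (fun u => ind (c ∉ u) * ((L x' u : ℝ) + ΔH)) ≤
          Ex k ((r + 1) * j) (fun v => Ex k (M + b') (fun y => (L ([] ++ c :: (x' ++ v)) y : ℝ))) := by
        intro x' hx'
        by_cases hcx : c ∈ x'
        · rw [ind_false (not_not.mpr hcx), zero_mul, add_zero]
          have := hne j c x'
          rw [hx'] at this
          simpa using this
        · rw [ind_true hcx, one_mul]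
          have h1 := scan hk0 c (fun y => Ex k ((r + 1) * j) (fun x => (L (x' ++ x) y : ℝ)))
            (fun b => HP k r M G s r j b) (fun b => HP k r M G s (r + 1) j b) (M + b')
            (fun b hb => by
              rw [Ex_comm]
              have := ih b hb j x'
              rw [hx'] at this
              exact this)
            (fun b => hbase _ _ _) b' M le_rfl
            (fun y => Ex k ((r + 1) * j) (fun x => (L (c :: (x' ++ x)) y : ℝ)))
            (fun u y => by
              have e1 : (1 : ℝ) + Ex k ((r + 1) * j) (fun x => (L (x' ++ x) y : ℝ)) =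
                  Ex k ((r + 1) * j) (fun x => 1 + (L (x' ++ x) y : ℝ)) := by
                rw [Ex_add, Ex_const hk0]
              show (1 : ℝ) + Ex k ((r + 1) * j) (fun x => (L (x' ++ x) y : ℝ)) ≤ _
              rw [e1]
              apply Ex_mono
              intro x _
              have h2 : L (x' ++ x) y + 1 ≤ L (c :: (x' ++ x)) (u ++ c :: y) :=
                (L_cons_cons_self c (x' ++ x) y).trans
                  (L_mono (List.Sublist.refl _) (List.sublist_append_right _ _))
              have : ((L (x' ++ x) y : ℕ) : ℝ) + 1 ≤ L (c :: (x' ++ x)) (u ++ c :: y) := by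
                exact_mod_cast h2
              linarith)
          rw [Ex_comm]
          simp only [List.nil_append]
          refine le_trans (add_le_add (le_refl _) ?_) h1
          apply Ex_mono
          intro u _
          apply mul_le_mul_of_nonneg_left _ (ind_nonneg _)
          have h4 := ih b' (by have := P.hM; omega) j []
          rw [Ex_comm] at h4
          have h5 : (L x' u : ℝ) + HP k r M G s 0 j b' ≤
              Ex k b' (fun y => Ex k ((r + 1) * j) (fun x => (L (c :: (x' ++ x)) (u ++ y) : ℝ))) := by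
            calc (L x' u : ℝ) + HP k r M G s 0 j b'
                ≤ (L x' u : ℝ) + Ex k b' (fun y => Ex k ((r + 1) * j)
                    (fun x => (L ([] ++ x) y : ℝ))) := by
                  have := h4
                  simp only [List.length_nil] at this
                  linarith
              _ = Ex k b' (fun y => Ex k ((r + 1) * j)
                    (fun x => (L x' u : ℝ) + (L ([] ++ x) y : ℝ))) := by
                  simp only [Ex_add, Ex_const hk0]
              _ ≤ _ := by
                  apply Ex_mono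
                  intro y _
                  apply Ex_mono
                  intro x _
                  have h6 : L x' u + L x y ≤ L (c :: (x' ++ x)) (u ++ y) :=
                    (L_append_ge x' x u y).trans (L_cons_left c _ _)
                  simp only [List.nil_append]
                  exact_mod_cast h6
          rw [hΔ]
          linarith
      calc HP k r M G s (r + 1) j ((M + b' : ℕ) : ℝ) + qq k r M * (G + ΔH)
          ≤ HP k r M G s (r + 1) j ((M + b' : ℕ) : ℝ) +
            Ex k r (fun x' => ind (c ∉ x') * Ex k M (fun u => ind (c ∉ u) * ((L x' u : ℝ) + ΔH))) := by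
            have e1 : ∀ x' : List (Fin k), ind (c ∉ x') *
                Ex k M (fun u => ind (c ∉ u) * ((L x' u : ℝ) + ΔH)) =
                ind (c ∉ x') * Ex k M (fun u => ind (c ∉ u) * (L x' u : ℝ)) +
                ind (c ∉ x') * ((((k : ℝ) - 1) / k) ^ M * ΔH) := by
              intro x'
              rw [← mul_add]
              congr 1
              rw [← mass_notMem c M, ← Ex_mul_const, ← Ex_add]
              exact Ex_congr fun u _ => by ring
            simp only [e1]
            rw [Ex_add, Ex_mul_const, mass_notMem]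
            have e2 : (((k : ℝ) - 1) / k) ^ r * ((((k : ℝ) - 1) / k) ^ M * ΔH) =
                qq k r M * ΔH := by
              unfold qq
              rw [pow_add]; ring
            rw [e2]
            have := P.luck c
            have e3 : qq k r M * G = (((k : ℝ) - 1) / k) ^ (r + M) * G := rfl
            rw [mul_add, e3]
            linarith
        _ = Ex k r (fun x' => HP k r M G s (r + 1) j ((M + b' : ℕ) : ℝ) +
            ind (c ∉ x') * Ex k M (fun u => ind (c ∉ u) * ((L x' u : ℝ) + ΔH))) := by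
            rw [Ex_add, Ex_const hk0]
        _ ≤ _ := Ex_mono hx
    have hfin : HP k r M G s (List.length ([] : List (Fin k))) (j + 1) ((M + b' : ℕ) : ℝ) ≤
        HP k r M G s (r + 1) j ((M + b' : ℕ) : ℝ) + qq k r M * (G + ΔH) := by
      rw [hΔ]
      unfold HP
      have h := HH_block (κ := (k : ℝ)) (s := s) (q := qq k r M) (R := (r : ℝ) + 1) (G := G)
        (M := (M : ℝ)) hs hq0 (by linarith) hR (Nat.cast_nonneg _) (s + M) j ((M + b' : ℕ) : ℝ)
      have e4 : ((M + b' : ℕ) : ℝ) - (M : ℝ) = b' := by push_cast; ring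
      rw [e4] at h
      simpa using h
    refine hfin.trans ?_
    rw [le_div_iff₀ (by positivity)]
    calc (HP k r M G s (r + 1) j ((M + b' : ℕ) : ℝ) + qq k r M * (G + ΔH)) * k
        = ∑ _c : Fin k, (HP k r M G s (r + 1) j ((M + b' : ℕ) : ℝ) + qq k r M * (G + ΔH)) := by
          rw [Finset.sum_const, Finset.card_univ, Fintype.card_fin, nsmul_eq_mul, mul_comm]
      _ ≤ _ := Finset.sum_le_sum fun c _ => hc c

/-- the result of the strategy as a bound for `F` -/
lemma F_strategy {r M : ℕ} {G : ℝ} (P : Par k r M G) {s : ℝ} (hs : 0 < s) (b j : ℕ) :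
    HP k r M G s 0 j b ≤ F k ((r + 1) * j) b := by
  have := strategy P hs b j []
  simpa [F] using this

end P2H6

end Pool.Agent.LCSV
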